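import Pool.Agent.Helper26.Ip.Tools

/-!
# Independent parts of stationary waves: derivatives of the translations (MP_6b977f_mp)
-/

set_option autoImplicit false
set_option linter.unusedSectionVars false
open MeasureTheory Filter Topology ProbabilityTheory
open scoped ContDiff ENNReal InnerProductSpace

namespace Pool.Agent.Helper26.Ip

open Pool.Agent.N661.BR (MW J0 IsStationary shift meas_eval meas_shift IsGaussianLaw lin meas_lin)
open Pool.Agent.Helper37.BC

noncomputable section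

variable {μ : Measure MW} [IsProbabilityMeasure μ]

/-- the local bound of differences -/
def GradBound : Prop := ∃ C : ℝ, 0 ≤ C ∧ ∀ (f : MW) (x : ℂ), ‖x‖ ≤ 1 →
    |f x - f 0| ≤ C * ‖x‖ * ∫ y in Metric.ball (0:ℂ) 2, |f y|

/-- the local integral around `y` -/
def GI (y : ℂ) (f : MW) : ℝ := ∫ x in Metric.ball (0:ℂ) 2, |(shift y f) x|

theorem GI_nonneg (y : ℂ) (f : MW) : 0 ≤ GI y f := integral_nonneg fun _ => abs_nonneg _

theorem GI_two (hs : IsStationary μ) (h2 : Integrable (fun f : MW => f 0 ^ 2) μ) (y : ℂ) :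
    MemLp (GI y) 2 μ := by
  have h1 := (GB_two hs h2 (ρ := 1) zero_le_one).comp_measurePreserving (mp_shift hs y)
  have h3 := h1.const_mul (volume.real (Metric.ball (0:ℂ) (1 + 1)))
  refine h3.ae_eq (Eventually.of_forall fun f => ?_)
  show volume.real (Metric.ball (0:ℂ) (1 + 1)) * GB 1 (shift y f) = GI y f
  unfold GB GI
  rw [setAverage_eq, smul_eq_mul, ← mul_assoc, mul_inv_cancel₀, one_mul]
  · norm_num
  · rw [measureReal_def]
    exact (ENNReal.toReal_pos (ball_pos (by norm_num)) (ball_fin _)).ne'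

/-- the difference quotient converges in `L²` for one value -/
theorem gen_V (hg : GradBound) (hs : IsStationary μ) (h2 : Integrable (fun f : MW => f 0 ^ 2) μ)
    (e y : ℂ) : ∃ D : Lp ℝ 2 μ,
      Tendsto (fun h : ℝ => h⁻¹ • (S hs (h * e) (V hs h2 y) - V hs h2 y)) (𝓝[>] 0) (𝓝 D) := by
  obtain ⟨C, hC, hb⟩ := hg
  -- the pointwise bound
  have hb' : ∀ (f : MW) (h : ℝ), 0 < h → h * ‖e‖ ≤ 1 →
      |h⁻¹ * (f (y + h * e) - f y)| ≤ C * ‖e‖ * GI y f := by
    intro f h hh hhe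
    have hn : ‖(h:ℂ) * e‖ = h * ‖e‖ := by
      rw [norm_mul, Complex.norm_real, Real.norm_eq_abs, abs_of_pos hh]
    have h1 := hb (shift y f) (h * e) (by rw [hn]; exact hhe)
    rw [shift_apply, shift_apply, zero_add, hn, add_comm] at h1
    rw [abs_mul, abs_of_pos (inv_pos.2 hh)]
    unfold GI
    calc h⁻¹ * |f (y + h * e) - f y| ≤ h⁻¹ * (C * (h * ‖e‖) *
          ∫ x in Metric.ball (0:ℂ) 2, |(shift y f) x|) := by gcongr
      _ = _ := by field_simp
  -- the pointwise limit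
  have hlim : ∀ f : MW, Tendsto (fun h : ℝ => h⁻¹ * (f (y + h * e) - f y)) (𝓝[>] 0)
      (𝓝 (fderiv ℝ f.1 y e)) := by
    intro f
    have h1 : HasDerivAt (fun t : ℝ => f (y + (t : ℂ) * e)) (fderiv ℝ f.1 y e) 0 := by
      have h2 : HasDerivAt (fun t : ℝ => y + (t : ℂ) * e) e 0 := by
        have h3 := (Complex.ofRealCLM.hasDerivAt (x := (0 : ℝ))).mul_const e
        have h4 := h3.const_add y
        simpa using h4
      have h5 : HasFDerivAt f.1 (fderiv ℝ f.1 y) (y + ((0 : ℝ) : ℂ) * e) := by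
        have : y + ((0 : ℝ) : ℂ) * e = y := by simp
        rw [this]
        exact (f.2.1.differentiable (by simp) y).hasFDerivAt
      exact h5.comp_hasDerivAt 0 h2
    have h6 := (hasDerivAt_iff_tendsto_slope_zero.1 h1).mono_left
      (nhdsWithin_mono (0:ℝ) (fun t (ht : t ∈ Set.Ioi (0:ℝ)) => (Set.mem_Ioi.1 ht).ne'))
    refine h6.congr fun t => ?_
    simp only [zero_add, smul_eq_mul, Complex.ofReal_zero, zero_mul, add_zero]
  have hev : ∀ᶠ h : ℝ in 𝓝[>] 0, 0 < h ∧ h * ‖e‖ ≤ 1 := by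
    have h1 : Tendsto (fun h : ℝ => h * ‖e‖) (𝓝[>] 0) (𝓝 0) := by
      have : Tendsto (fun h : ℝ => h * ‖e‖) (𝓝 0) (𝓝 (0 * ‖e‖)) :=
        (continuous_id.mul continuous_const).tendsto 0
      rw [zero_mul] at this
      exact this.mono_left nhdsWithin_le_nhds
    filter_upwards [self_mem_nhdsWithin, h1.eventually (ge_mem_nhds one_pos)] with h a b
    exact ⟨a, b⟩
  -- the derivative is in `L²`
  have hDb : ∀ f : MW, |fderiv ℝ f.1 y e| ≤ C * ‖e‖ * GI y f := by
    intro f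
    exact le_of_tendsto (hlim f).abs (hev.mono fun h hh => hb' f h hh.1 hh.2)
  have hDm : Measurable (fun f : MW => fderiv ℝ f.1 y e) := by
    refine measurable_of_tendsto_metrizable (f := fun (n : ℕ) (f : MW) =>
      ((1 / ((n:ℝ) + 1))⁻¹ * (f (y + ((1 / ((n:ℝ) + 1) : ℝ) : ℂ) * e) - f y))) (fun n => ?_) ?_
    · exact ((meas_eval _).sub (meas_eval _)).const_mul _
    · refine tendsto_pi_nhds.2 fun f => ?_
      have h7 : Tendsto (fun n : ℕ => 1 / ((n : ℝ) + 1)) atTop (𝓝[>] 0) := by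
        refine tendsto_nhdsWithin_iff.2 ⟨tendsto_one_div_add_atTop_nhds_zero_nat,
          Eventually.of_forall fun n => ?_⟩
        have : (0 : ℝ) < 1 / ((n : ℝ) + 1) := by positivity
        exact this
      exact (hlim f).comp h7
  have hG := (GI_two hs h2 y).const_mul (C * ‖e‖)
  have hD : MemLp (fun f : MW => fderiv ℝ f.1 y e) 2 μ :=
    hG.mono hDm.aestronglyMeasurable (Eventually.of_forall fun f => by
      rw [Real.norm_eq_abs, Real.norm_eq_abs]
      exact (hDb f).trans (le_abs_self _))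
  refine ⟨hD.toLp _, ?_⟩
  rw [tendsto_iff_norm_sub_tendsto_zero]
  -- the square of the norm
  have hsq : ∀ h : ℝ, ‖h⁻¹ • (S hs (h * e) (V hs h2 y) - V hs h2 y) - hD.toLp _‖ ^ 2 =
      ∫ f : MW, (h⁻¹ * (f (y + h * e) - f y) - fderiv ℝ f.1 y e) ^ 2 ∂μ := by
    intro h
    rw [← real_inner_self_eq_norm_sq, L2.inner_def, S_V]
    refine integral_congr_ae ?_
    filter_upwards [Lp.coeFn_sub (h⁻¹ • (V hs h2 (y + h * e) - V hs h2 y)) (hD.toLp _),
      Lp.coeFn_smul h⁻¹ (V hs h2 (y + h * e) - V hs h2 y),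
      Lp.coeFn_sub (V hs h2 (y + h * e)) (V hs h2 y), V_coe hs h2 (y + h * e), V_coe hs h2 y,
      MemLp.coeFn_toLp hD] with f a1 a2 a3 a4 a5 a6
    rw [a1, Pi.sub_apply, a2, Pi.smul_apply, a3, Pi.sub_apply, a4, a5, a6, smul_eq_mul]
    rw [real_inner_self_eq_norm_sq, Real.norm_eq_abs, sq_abs]
  have hint : Tendsto (fun h : ℝ => ∫ f : MW,
      (h⁻¹ * (f (y + h * e) - f y) - fderiv ℝ f.1 y e) ^ 2 ∂μ) (𝓝[>] 0) (𝓝 (∫ _ : MW, (0:ℝ) ∂μ)) := by
    refine tendsto_integral_filter_of_dominated_convergence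
      (fun f => (2 * (C * ‖e‖ * GI y f)) ^ 2) ?_ ?_ ?_ ?_
    · refine Eventually.of_forall fun h => ?_
      exact ((((meas_eval _).sub (meas_eval _)).const_mul _).sub hDm).pow_const 2
        |>.aestronglyMeasurable
    · filter_upwards [hev] with h hh
      refine Eventually.of_forall fun f => ?_
      rw [Real.norm_eq_abs, abs_of_nonneg (sq_nonneg _)]
      refine sq_le_sq' ?_ ?_
      · have h3 := abs_le.1 (hb' f h hh.1 hh.2)
        have h4 := abs_le.1 (hDb f)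
        linarith [h3.1, h4.2]
      · have h3 := abs_le.1 (hb' f h hh.1 hh.2)
        have h4 := abs_le.1 (hDb f)
        linarith [h3.2, h4.1]
    · exact (hG.const_mul 2).integrable_sq
    · refine Eventually.of_forall fun f => ?_
      have h3 := ((hlim f).sub_const (fderiv ℝ f.1 y e)).pow 2
      simpa using h3
  rw [integral_zero] at hint
  have h5 : Tendsto (fun h : ℝ => ‖h⁻¹ • (S hs (h * e) (V hs h2 y) - V hs h2 y) - hD.toLp _‖ ^ 2)
      (𝓝[>] 0) (𝓝 0) := by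
    simp only [hsq]
    exact hint
  have h6 := (Real.continuous_sqrt.tendsto 0).comp h5
  rw [Real.sqrt_zero] at h6
  refine h6.congr fun h => ?_
  show Real.sqrt (‖_‖ ^ 2) = _
  rw [Real.sqrt_sq (norm_nonneg _)]

/-- **the difference quotients converge** -/
theorem gen (hg : GradBound) (hs : IsStationary μ) (h2 : Integrable (fun f : MW => f 0 ^ 2) μ)
    (hlip : ∃ C : ℝ, 0 ≤ C ∧ ∀ x : ℂ, ∀ c ∈ values μ, ‖S hs x c - c‖ ≤ C * ‖x‖ * ‖c‖)
    (e : ℂ) (c : Lp ℝ 2 μ) (hc : c ∈ values μ) : ∃ D : Lp ℝ 2 μ,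
      Tendsto (fun h : ℝ => h⁻¹ • (S hs (h * e) c - c)) (𝓝[>] 0) (𝓝 D) := by
  obtain ⟨C, hC0, hC⟩ := hlip
  have hlb : ∀ c ∈ values μ, ∀ h : ℝ, 0 < h → ‖h⁻¹ • (S hs (h * e) c - c)‖ ≤ C * ‖e‖ * ‖c‖ := by
    intro c hc h hh
    have h1 := hC (h * e) c hc
    rw [norm_mul, Complex.norm_real, Real.norm_eq_abs, abs_of_pos hh] at h1
    rw [norm_smul, norm_inv, Real.norm_eq_abs, abs_of_pos hh]
    calc h⁻¹ * ‖S hs (h * e) c - c‖ ≤ h⁻¹ * (C * (h * ‖e‖) * ‖c‖) := by gcongr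
      _ = _ := by field_simp
  refine (values_induction hs h2 (p := fun c => c ∈ values μ ∧ ∃ D : Lp ℝ 2 μ,
      Tendsto (fun h : ℝ => h⁻¹ • (S hs (h * e) c - c)) (𝓝[>] 0) (𝓝 D)) ?_ ?_ ?_ ?_ ?_ hc).2
  · -- closedness
    rw [← closure_subset_iff_isClosed]
    intro g hg'
    have hgv : g ∈ values μ := by
      have : closure {c : Lp ℝ 2 μ | c ∈ values μ ∧ ∃ D : Lp ℝ 2 μ,
          Tendsto (fun h : ℝ => h⁻¹ • (S hs (h * e) c - c)) (𝓝[>] 0) (𝓝 D)} ⊆ values μ :=
        (values_closed (μ := μ)).closure_subset_iff.2 fun c hc => hc.1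
      exact this hg'
    refine ⟨hgv, ?_⟩
    rw [← cauchy_map_iff_exists_tendsto, Metric.cauchy_iff]
    refine ⟨inferInstance, fun ε hε => ?_⟩
    obtain ⟨g', hg1, hg2⟩ := Metric.mem_closure_iff.1 hg' (ε / (4 * (C * ‖e‖ + 1)))
      (by positivity)
    have hk : ∀ h : ℝ, 0 < h → ‖h⁻¹ • (S hs (h * e) g - g) - h⁻¹ • (S hs (h * e) g' - g')‖ ≤
        ε / 4 := by
      intro h hh
      have e1 : h⁻¹ • (S hs (h * e) g - g) - h⁻¹ • (S hs (h * e) g' - g') =
          h⁻¹ • (S hs (h * e) (g - g') - (g - g')) := by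
        rw [map_sub, ← smul_sub]
        congr 1
        abel
      rw [e1]
      refine (hlb _ ((values μ).sub_mem hgv hg1.1) h hh).trans ?_
      rw [dist_eq_norm] at hg2
      have h3 : 0 < C * ‖e‖ + 1 := by positivity
      calc C * ‖e‖ * ‖g - g'‖ ≤ (C * ‖e‖ + 1) * (ε / (4 * (C * ‖e‖ + 1))) := by
            have h4 := hg2.le
            have h5 : 0 ≤ C * ‖e‖ := by positivity
            nlinarith [norm_nonneg (g - g')]
        _ = ε / 4 := by field_simp
    obtain ⟨D, hD⟩ := hg1.2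
    have h4 := (Metric.tendsto_nhds.1 hD) (ε / 8) (by positivity)
    refine ⟨_, Filter.image_mem_map (h4.and self_mem_nhdsWithin), ?_⟩
    rintro _ ⟨h, ⟨hh1, hh2⟩, rfl⟩ _ ⟨h', ⟨hh1', hh2'⟩, rfl⟩
    have a1 := hk h hh2
    have a2 := hk h' hh2'
    rw [← dist_eq_norm] at a1 a2
    have a3 := dist_triangle (h⁻¹ • (S hs (h * e) g - g)) (h⁻¹ • (S hs (h * e) g' - g'))
      (h'⁻¹ • (S hs (h' * e) g - g))
    have a4 := dist_triangle (h⁻¹ • (S hs (h * e) g' - g')) D (h'⁻¹ • (S hs (h' * e) g - g))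
    have a5 := dist_triangle D (h'⁻¹ • (S hs (h' * e) g' - g')) (h'⁻¹ • (S hs (h' * e) g - g))
    have a2' : dist (h'⁻¹ • (S hs (h' * e) g' - g')) (h'⁻¹ • (S hs (h' * e) g - g)) ≤ ε / 4 := by
      rw [dist_comm]; exact a2
    have hh1'' : dist D (h'⁻¹ • (S hs (h' * e) g' - g')) < ε / 8 := by
      rw [dist_comm]; exact hh1'
    have a6 : dist (h⁻¹ • (S hs (h * e) g' - g')) D < ε / 8 := hh1
    linarith
  · intro y
    exact ⟨V_mem hs h2 y, gen_V hg hs h2 e y⟩
  · exact ⟨(values μ).zero_mem, 0, by simp⟩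
  · rintro g k ⟨hg1, D1, hD1⟩ ⟨hk1, D2, hD2⟩
    refine ⟨(values μ).add_mem hg1 hk1, D1 + D2, (hD1.add hD2).congr fun h => ?_⟩
    rw [map_add, ← smul_add]
    congr 1
    abel
  · rintro t g ⟨hg1, D1, hD1⟩
    refine ⟨(values μ).smul_mem t hg1, t • D1, (hD1.const_smul t).congr fun h => ?_⟩
    rw [map_smul, ← smul_sub, smul_comm]

end

end Pool.Agent.Helper26.Ip
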