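import Pool.Agent.Helper26.Ip.Gen

/-!
# Independent parts of stationary waves: the Lipschitz bound (MP_6b977f_mp)
-/

set_option autoImplicit false
set_option linter.unusedSectionVars false
open MeasureTheory Filter Topology ProbabilityTheory
open scoped ContDiff ENNReal InnerProductSpace

namespace Pool.Agent.Helper26.Ip

open Pool.Agent.N661.BR (MW J0 IsStationary shift meas_eval meas_shift IsGaussianLaw lin meas_lin)
open Pool.Agent.Helper37.BC

noncomputable section

theorem J0_pos {r : ℝ} (h0 : 0 ≤ r) (h1 : r ≤ 1) : 0 < J0 r := by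
  have h2 : ∀ α : ℝ, Real.cos 1 ≤ Real.cos (r * Real.cos α) := by
    intro α
    rw [← Real.cos_abs (r * Real.cos α)]
    refine Real.cos_le_cos_of_nonneg_of_le_pi (abs_nonneg _) (by linarith [Real.pi_gt_three]) ?_
    rw [abs_mul, abs_of_nonneg h0]
    exact mul_le_one₀ h1 (abs_nonneg _) (Real.abs_cos_le_one α)
  have h3 : ∫ α in (0:ℝ)..(2 * Real.pi), Real.cos 1 ≤
      ∫ α in (0:ℝ)..(2 * Real.pi), Real.cos (r * Real.cos α) :=
    intervalIntegral.integral_mono_on (by positivity) intervalIntegrable_const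
      (Continuous.intervalIntegrable (by fun_prop) _ _) fun α _ => h2 α
  rw [intervalIntegral.integral_const, sub_zero, smul_eq_mul] at h3
  unfold J0
  have h4 := Real.cos_one_pos
  have : 0 < 2 * Real.pi * Real.cos 1 := by positivity
  have h5 : 0 < ∫ α in (0:ℝ)..(2 * Real.pi), Real.cos (r * Real.cos α) := lt_of_lt_of_le this h3
  positivity

/-- the weight -/
def ww (y : ℂ) : ℝ := max (1 - ‖y‖) 0

theorem ww_cont : Continuous ww := by unfold ww; fun_prop

theorem ww_lip (x y : ℂ) : |ww (y - x) - ww y| ≤ ‖x‖ := by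
  unfold ww
  refine (abs_max_sub_max_le_abs _ _ _).trans ?_
  have h1 : (1 - ‖y - x‖) - (1 - ‖y‖) = ‖y‖ - ‖y - x‖ := by ring
  rw [h1]
  have h2 := abs_norm_sub_norm_le y (y - x)
  have h3 : y - (y - x) = x := by ring
  rwa [h3] at h2

theorem ww_zero {y : ℂ} (h : 1 ≤ ‖y‖) : ww y = 0 := by
  unfold ww
  exact max_eq_right (by linarith)

/-- the constant -/
def kap : ℝ := ∫ r in (0:ℝ)..1, (2 * Real.pi) * (r * (1 - r) * J0 r)

theorem kap_pos : 0 < kap := by
  unfold kap
  refine intervalIntegral.intervalIntegral_pos_of_pos_on ?_ ?_ one_pos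
  · exact (continuous_const.mul ((continuous_id.mul (continuous_const.sub continuous_id)).mul
      J0_cont)).intervalIntegrable _ _
  · intro r hr
    have h1 := J0_pos hr.1.le hr.2.le
    have h2 : 0 < 1 - r := by linarith [hr.2]
    have h3 := hr.1
    have h4 := Real.pi_pos
    positivity

/-- the mean value property -/
def MeanValue (u : ℂ → ℝ) : Prop := ∀ (z : ℂ) (r : ℝ), 0 ≤ r →
  ∫ θ in (0:ℝ)..(2 * Real.pi), u (z + r * ee θ) = 2 * Real.pi * J0 r * u z

theorem ww_rep {u : ℂ → ℝ} (hu : Continuous u) (hm : MeanValue u) (z : ℂ) :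
    ∫ y, ww (y - z) * u y = kap * u z := by
  have h1 : ∫ y, ww (y - z) * u y = ∫ y, ww y * u (z + y) := by
    rw [← integral_add_right_eq_self (fun y => ww (y - z) * u y) z]
    congr 1
    funext y
    rw [add_sub_cancel_right, add_comm y z]
  have hc : Continuous fun y : ℂ => (1 - ‖y‖) * u (z + y) := by fun_prop
  have h2 : ∀ y : ℂ, ww y * u (z + y) =
      (Metric.ball (0:ℂ) 1).indicator (fun y => (1 - ‖y‖) * u (z + y)) y := by
    intro y
    by_cases hy : y ∈ Metric.ball (0:ℂ) 1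
    · rw [Set.indicator_of_mem hy]
      rw [mem_ball_zero_iff] at hy
      unfold ww
      rw [max_eq_left (by linarith)]
    · rw [Set.indicator_of_notMem hy]
      rw [mem_ball_zero_iff, not_lt] at hy
      rw [ww_zero hy, zero_mul]
  rw [h1]
  simp_rw [h2]
  rw [integral_indicator Metric.isOpen_ball.measurableSet, polar hc zero_le_one]
  unfold kap
  rw [← intervalIntegral.integral_mul_const]
  refine intervalIntegral.integral_congr fun r hr => ?_
  rw [Set.uIcc_of_le zero_le_one] at hr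
  have hn : ∀ θ : ℝ, ‖(r:ℂ) * ee θ‖ = r := fun θ => by
    rw [norm_mul, ee_norm, mul_one, Complex.norm_real, Real.norm_eq_abs, abs_of_nonneg hr.1]
  show r * ∫ θ in (0:ℝ)..(2 * Real.pi), (1 - ‖(r:ℂ) * ee θ‖) * u (z + r * ee θ) = _
  simp_rw [hn]
  rw [intervalIntegral.integral_const_mul, hm z r hr.1]
  ring

/-- **the local Lipschitz bound** -/
theorem loc_lip {u : ℂ → ℝ} (hu : Continuous u) (hm : MeanValue u) {x : ℂ} (hx : ‖x‖ ≤ 1) :
    |u x - u 0| ≤ kap⁻¹ * ‖x‖ * ∫ y in Metric.ball (0:ℂ) 2, |u y| := by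
  have hk := kap_pos
  have hsupp : ∀ z : ℂ, ‖z‖ ≤ 1 → ∀ y : ℂ, y ∉ Metric.ball (0:ℂ) 2 → ww (y - z) = 0 := by
    intro z hz y hy
    rw [mem_ball_zero_iff, not_lt] at hy
    refine ww_zero ?_
    have := norm_sub_norm_le y z
    linarith
  have hi : ∀ z : ℂ, ‖z‖ ≤ 1 → Integrable fun y => ww (y - z) * u y := by
    intro z hz
    have hc : Continuous fun y => ww (y - z) * u y :=
      (ww_cont.comp (continuous_id.sub continuous_const)).mul hu
    have h1 : (fun y => ww (y - z) * u y) =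
        (Metric.ball (0:ℂ) 2).indicator (fun y => ww (y - z) * u y) := by
      funext y
      by_cases hy : y ∈ Metric.ball (0:ℂ) 2
      · rw [Set.indicator_of_mem hy]
      · rw [Set.indicator_of_notMem hy, hsupp z hz y hy, zero_mul]
    rw [h1]
    exact (integrable_indicator_iff Metric.isOpen_ball.measurableSet).2 (cont_ball hc 2)
  have h1 := ww_rep hu hm x
  have h0 := ww_rep hu hm 0
  have h0z : ‖(0:ℂ)‖ ≤ 1 := by simp
  have h2 : kap * (u x - u 0) = ∫ y, (ww (y - x) - ww (y - 0)) * u y := by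
    rw [mul_sub, ← h1, ← h0, ← integral_sub (hi x hx) (hi 0 h0z)]
    congr 1
    funext y
    ring
  have h3 : ‖∫ y, (ww (y - x) - ww (y - 0)) * u y‖ ≤
      ∫ y, (Metric.ball (0:ℂ) 2).indicator (fun y => ‖x‖ * |u y|) y := by
    refine norm_integral_le_of_norm_le ?_ (Eventually.of_forall fun y => ?_)
    · exact (integrable_indicator_iff Metric.isOpen_ball.measurableSet).2
        (cont_ball (continuous_const.mul hu.abs) 2)
    · by_cases hy : y ∈ Metric.ball (0:ℂ) 2
      · rw [Set.indicator_of_mem hy, norm_mul, Real.norm_eq_abs, Real.norm_eq_abs, sub_zero]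
        exact mul_le_mul_of_nonneg_right (ww_lip x y) (abs_nonneg _)
      · rw [Set.indicator_of_notMem hy, hsupp x hx y hy, hsupp 0 h0z y hy]
        simp
  rw [← h2, integral_indicator Metric.isOpen_ball.measurableSet, integral_const_mul, norm_mul,
    Real.norm_eq_abs, Real.norm_eq_abs, abs_of_pos hk] at h3
  have h4 : |u x - u 0| = kap⁻¹ * (kap * |u x - u 0|) := by field_simp
  rw [h4, mul_assoc]
  gcongr

theorem grad_bound : GradBound :=
  ⟨kap⁻¹, (inv_pos.2 kap_pos).le, fun f _ hx => loc_lip f.2.1.continuous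
    (fun z _ hr => AA_eq f.2.1 f.2.2 z hr) hx⟩

variable {μ : Measure MW} [IsProbabilityMeasure μ]

theorem S_bound (hs : IsStationary μ) (x : ℂ) (c g : Lp ℝ 2 μ) : |⟪S hs x c, g⟫_ℝ| ≤ ‖c‖ * ‖g‖ := by
  have := abs_real_inner_le_norm (S hs x c) g
  rwa [LinearIsometry.norm_map] at this

/-- **the Lipschitz bound of the translations** -/
theorem lip (hs : IsStationary μ) (h2 : Integrable (fun f : MW => f 0 ^ 2) μ)
    (hV : ∀ g : Lp ℝ 2 μ, Continuous (fun y => ⟪V hs h2 y, g⟫_ℝ) ∧
      MeanValue (fun y => ⟪V hs h2 y, g⟫_ℝ)) :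
    ∃ C : ℝ, 0 ≤ C ∧ ∀ x : ℂ, ∀ c ∈ values μ, ‖S hs x c - c‖ ≤ C * ‖x‖ * ‖c‖ := by
  have hk := kap_pos
  set K : ℝ := kap⁻¹ * volume.real (Metric.ball (0:ℂ) 2) with hK
  have hK0 : 0 ≤ K := mul_nonneg (inv_pos.2 hk).le measureReal_nonneg
  -- the span
  have hp : ∀ g : Lp ℝ 2 μ, ∀ c ∈ Submodule.span ℝ (Set.range (V hs h2)),
      Continuous (fun y => ⟪S hs y c, g⟫_ℝ) ∧ MeanValue (fun y => ⟪S hs y c, g⟫_ℝ) := by
    intro g c hc
    induction hc using Submodule.span_induction with
    | mem c hc =>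
      obtain ⟨y, rfl⟩ := hc
      obtain ⟨h1, h3⟩ := hV g
      refine ⟨?_, fun z r hr => ?_⟩
      · simp only [S_V]
        exact h1.comp (continuous_const.add continuous_id)
      · have := h3 (y + z) r hr
        simp only [S_V]
        rw [← this]
        refine intervalIntegral.integral_congr fun θ _ => ?_
        show ⟪V hs h2 (y + (z + r * ee θ)), g⟫_ℝ = ⟪V hs h2 (y + z + r * ee θ), g⟫_ℝ
        rw [add_assoc]
    | zero =>
      refine ⟨?_, fun z r _ => ?_⟩
      · simp only [map_zero, inner_zero_left]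
        exact continuous_const
      · simp
    | add a b _ _ ha hb =>
      refine ⟨?_, fun z r hr => ?_⟩
      · simp only [map_add, inner_add_left]
        exact ha.1.add hb.1
      · simp only [map_add, inner_add_left]
        have hcc : ∀ c : Lp ℝ 2 μ, Continuous (fun y => ⟪S hs y c, g⟫_ℝ) →
            IntervalIntegrable (fun θ => ⟪S hs (z + r * ee θ) c, g⟫_ℝ) volume 0 (2 * Real.pi) :=
          fun c hc => (hc.comp (continuous_const.add
            (continuous_const.mul ee_cont))).intervalIntegrable _ _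
        rw [intervalIntegral.integral_add (hcc a ha.1) (hcc b hb.1)]
        have h1 := ha.2 z r hr
        have h3 := hb.2 z r hr
        simp only at h1 h3
        rw [h1, h3]
        ring
    | smul t a _ ha =>
      refine ⟨?_, fun z r hr => ?_⟩
      · simp only [map_smul, inner_smul_left, conj_trivial]
        exact ha.1.const_mul t
      · simp only [map_smul, inner_smul_left, conj_trivial]
        rw [intervalIntegral.integral_const_mul]
        have h1 := ha.2 z r hr
        simp only at h1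
        rw [h1]
        ring
  -- small translations
  have hsmall : ∀ x : ℂ, ‖x‖ ≤ 1 → ∀ c ∈ Submodule.span ℝ (Set.range (V hs h2)),
      ‖S hs x c - c‖ ≤ K * ‖x‖ * ‖c‖ := by
    intro x hx c hc
    set g := S hs x c - c with hg
    obtain ⟨h1, h3⟩ := hp g c hc
    have h4 := loc_lip h1 h3 hx
    simp only [S_zero] at h4
    rw [← inner_sub_left, ← hg, real_inner_self_eq_norm_sq, abs_of_nonneg (sq_nonneg _)] at h4
    have h5 : ∫ y in Metric.ball (0:ℂ) 2, |⟪S hs y c, g⟫_ℝ| ≤
        ∫ y in Metric.ball (0:ℂ) 2, ‖c‖ * ‖g‖ :=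
      setIntegral_mono (cont_ball h1.abs 2) (integrableOn_const (ball_fin 2))
        fun y => S_bound hs y c g
    rw [setIntegral_const, smul_eq_mul] at h5
    have h6 : ‖g‖ ^ 2 ≤ K * ‖x‖ * ‖c‖ * ‖g‖ := by
      refine h4.trans ?_
      calc kap⁻¹ * ‖x‖ * ∫ y in Metric.ball (0:ℂ) 2, |⟪S hs y c, g⟫_ℝ|
          ≤ kap⁻¹ * ‖x‖ * (volume.real (Metric.ball (0:ℂ) 2) * (‖c‖ * ‖g‖)) := by gcongr
        _ = _ := by rw [hK]; ring
    rcases (norm_nonneg g).eq_or_lt with h7 | h7
    · rw [← h7]; positivity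
    · rw [sq] at h6
      exact le_of_mul_le_mul_right h6 h7
  refine ⟨K + 2, by positivity, fun x c hc => ?_⟩
  by_cases hx : ‖x‖ ≤ 1
  · have h3 : ‖S hs x c - c‖ ≤ K * ‖x‖ * ‖c‖ := by
      rw [values_eq hs h2] at hc
      have hcl : IsClosed {c : Lp ℝ 2 μ | ‖S hs x c - c‖ ≤ K * ‖x‖ * ‖c‖} :=
        isClosed_le (((S hs x).continuous.sub continuous_id).norm)
          (continuous_const.mul continuous_norm)
      have hsub : ((Submodule.span ℝ (Set.range (V hs h2)) : Submodule ℝ (Lp ℝ 2 μ)) :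
          Set (Lp ℝ 2 μ)) ⊆ {c | ‖S hs x c - c‖ ≤ K * ‖x‖ * ‖c‖} := fun c hc => hsmall x hx c hc
      exact (hcl.closure_subset_iff.2 hsub) hc
    refine h3.trans ?_
    gcongr
    linarith
  · push Not at hx
    have h3 : ‖S hs x c - c‖ ≤ 2 * ‖c‖ := by
      refine (norm_sub_le _ _).trans ?_
      rw [LinearIsometry.norm_map]
      linarith
    refine h3.trans ?_
    have h4 : 2 ≤ (K + 2) * ‖x‖ := by nlinarith
    exact mul_le_mul_of_nonneg_right h4 (norm_nonneg _)

end

end Pool.Agent.Helper26.Ip
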