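import Pool.Agent.Helper26.Ip.Core
import Pool.Agent.Helper26.Ip.Gen
import Pool.Agent.Helper26.Ip.Lip
import Pool.Agent.Helper41.Ip.CH
import Pool.Agent.Helper41.Ip.PR
import Pool.Agent.Helper83.Ip.ETA
import Pool.Agent.Helper33.Ip.Gauss
import Pool.Agent.Helper33.Ip.One
import Pool.Agent.Helper88.Ip.Inv
import Pool.Agent.Helper88.Ip.Inv2
import Pool.Agent.Helper88.Ip.Pw2c
import Pool.Agent.Helper72.Ip.PW1

/-!
# Independent parts of stationary waves: assembly (MP_6b977f_mp)
-/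

set_option autoImplicit false
set_option linter.unusedSectionVars false
open MeasureTheory Filter Topology ProbabilityTheory
open scoped ContDiff ENNReal InnerProductSpace

namespace Pool.Agent.Helper26.Ip

open Pool.Agent.N661.BR (MW J0 IsStationary shift meas_eval meas_shift IsGaussianLaw lin meas_lin)
open Pool.Agent.Helper37.BC
open Pool.Agent.Helper41.Ip (ch_cont ch_norm_le ch_zero ch_deriv exL_exists ex_zero_left ex_add
  ch_of_indep indep_of_ch process_indep)
open Pool.Agent.Helper33.Ip (S_ch S_ex mean_values gauss_of_ex ch_gauss cf one_le one_perp one_noA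
  one_noB)
open Pool.Agent.Helper88.Ip (inv_le inv_perp cov_even inv_noB inv_noA_neg inv_noA V_mean pws_noInv)
open Pool.Agent.Helper72.Ip (cont_Vg pw_two PW PWS pws_le pws_perp)
open Complex (I)

noncomputable section

theorem facts {Ω : Type*} [MeasurableSpace Ω] (μ : Measure Ω) [IsProbabilityMeasure μ] : Facts μ where
  ch_le := ch_norm_le
  exL := exL_exists
  ex_zero := ex_zero_left
  ex_add := fun _ _ _ h ho => ex_add h ho
  eta := Pool.Agent.Helper83.Ip.eta_exists

variable {μ : Measure MW} [IsProbabilityMeasure μ]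

theorem lip' (hs : IsStationary μ) (h2 : Integrable (fun f : MW => f 0 ^ 2) μ) :
    ∃ C : ℝ, 0 ≤ C ∧ ∀ x : ℂ, ∀ c ∈ values μ, ‖S hs x c - c‖ ≤ C * ‖x‖ * ‖c‖ :=
  lip hs h2 fun g => ⟨cont_Vg hs h2 g, fun z r hr => by
    have h := V_mean hs h2 g z hr
    rw [← h]
    refine intervalIntegral.integral_congr fun θ _ => ?_
    show ⟪V hs h2 (z + r * ee θ), g⟫_ℝ = _
    rw [ee_exp]⟩

/-- the excess vanishes on the elements orthogonal to the invariant parts -/
theorem ex_perp (hs : IsStationary μ) (h2 : Integrable (fun f : MW => f 0 ^ 2) μ)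
    {A : Submodule ℝ (Lp ℝ 2 μ)} (hAc : IsClosed (A : Set (Lp ℝ 2 μ))) (hA : A ≤ values μ)
    (hind : ∀ a ∈ A, ∀ b ∈ Aᗮ ⊓ values μ, ch (a + b) = ch a * ch b)
    {k : Lp ℝ 2 μ} (hk : k ∈ values μ) (h1 : ∀ a ∈ invariantPart A, ⟪a, k⟫_ℝ = 0)
    (h3 : ∀ b ∈ invariantPart (Aᗮ ⊓ values μ), ⟪b, k⟫_ℝ = 0) {c : Lp ℝ 2 μ} (hc : c ∈ values μ) :
    ex c k = 0 :=
  core (facts μ) (S hs) (S_zero hs) (S_add hs) (S_ex hs) (values μ) A values_closed hAc
    hA (fun x c hc => S_values hs h2 x hc) (fun c hc => mean_values hs h2 hc)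
    (lip' hs h2) (fun e c hc => gen grad_bound hs h2 (lip' hs h2) e c hc) hind c hc k hk
    (fun v hv hx => h1 v ⟨hv, fun x => ⟨S hs x v, hx x, S_coe hs x v⟩⟩)
    (fun v hv hx => h3 v ⟨hv, fun x => ⟨S hs x v, hx x, S_coe hs x v⟩⟩)

/-- the characteristic function along an element whose excess vanishes -/
theorem ch_line {c k : Lp ℝ 2 μ} (h : ∀ s : ℝ, ex (c + s • k) k = 0) (s : ℝ) :
    ch (c + s • k) = ch c * Complex.exp (-((s * ⟪k, c⟫_ℝ + s ^ 2 * ‖k‖ ^ 2 / 2 : ℝ) : ℂ)) := by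
  set a : ℝ := ⟪k, c⟫_ℝ with ha
  set b : ℝ := ‖k‖ ^ 2 with hb
  have hd : ∀ s : ℝ, HasDerivAt (fun s : ℝ => ch (c + s • k))
      (-((a + s * b : ℝ) : ℂ) * ch (c + s • k)) s := by
    intro s
    refine (ch_deriv c k s).congr_deriv ?_
    have h1 := h s
    unfold ex at h1
    have h3 : ∫ f, k f * (c + s • k : Lp ℝ 2 μ) f ∂μ = a + s * b := by
      rw [inner_int, inner_add_right, inner_smul_right, real_inner_self_eq_norm_sq]
    rw [h3] at h1
    linear_combination I * h1 + ((a + s * b : ℝ) : ℂ) * ch (c + s • k) * Complex.I_sq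
  have hconst : ∀ s : ℝ, HasDerivAt (fun s : ℝ => ch (c + s • k) *
      Complex.exp ((s * a + s ^ 2 * b / 2 : ℝ) : ℂ)) 0 s := by
    intro s
    have h1 : HasDerivAt (fun s : ℝ => ((s * a + s ^ 2 * b / 2 : ℝ) : ℂ)) ((a + s * b : ℝ) : ℂ) s := by
      have h3 : HasDerivAt (fun s : ℝ => s * a + s ^ 2 * b / 2) (a + s * b) s := by
        refine (((hasDerivAt_id' s).mul_const a).fun_add
          (((hasDerivAt_pow 2 s).mul_const b).div_const 2)).congr_deriv ?_
        simp
        ring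
      exact h3.ofReal_comp
    refine ((hd s).fun_mul h1.cexp).congr_deriv ?_
    ring
  have h1 := is_const_of_deriv_eq_zero (fun s => (hconst s).differentiableAt)
    (fun s => (hconst s).deriv) s 0
  simp only [zero_smul, add_zero, zero_mul, ne_eq, OfNat.ofNat_ne_zero, not_false_eq_true,
    zero_pow, zero_div, Complex.ofReal_zero, Complex.exp_zero, mul_one] at h1
  rw [← h1, mul_assoc, ← Complex.exp_add, add_neg_cancel, Complex.exp_zero, mul_one]

/-- the elements whose excess vanishes are Gaussian -/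
theorem map_gauss {k : Lp ℝ 2 μ} (h : ∀ s : ℝ, ch (s • k) =
    Complex.exp (-((s ^ 2 * ‖k‖ ^ 2 / 2 : ℝ) : ℂ))) :
    μ.map k = gaussianReal 0 (‖k‖ ^ 2).toNNReal := by
  have hm : AEMeasurable k μ := (Lp.stronglyMeasurable k).measurable.aemeasurable
  have : IsProbabilityMeasure (μ.map k) := Measure.isProbabilityMeasure_map hm
  refine Measure.ext_of_charFun ?_
  funext s
  rw [charFun_apply_real, charFun_gaussianReal, integral_map hm (by fun_prop),
    Real.coe_toNNReal _ (sq_nonneg _)]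
  have h1 := h s
  unfold ch at h1
  have h3 : ∫ f, Complex.exp (s * (k f : ℝ) * I) ∂μ =
      ∫ f, Complex.exp (I * (((s • k : Lp ℝ 2 μ) f : ℝ) : ℂ)) ∂μ := by
    refine integral_congr_ae ?_
    filter_upwards [Lp.coeFn_smul s k] with f hf
    rw [hf, Pi.smul_apply, smul_eq_mul]
    congr 1
    push_cast
    ring
  rw [h3, h1]
  congr 1
  push_cast
  ring

theorem indep_iff_ch (A B : Submodule ℝ (Lp ℝ 2 μ)) :
    Independent A B ↔ ∀ a ∈ A, ∀ b ∈ B, ch (a + b) = ch a * ch b := by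
  constructor
  · intro h a ha b hb
    exact ch_of_indep (h a ha b hb)
  · intro h a ha b hb
    exact indep_of_ch fun s t => h _ (A.smul_mem s ha) _ (B.smul_mem t hb)

/-- the invariant part as a closed subspace -/
def invSub (hs : IsStationary μ) (A : Submodule ℝ (Lp ℝ 2 μ)) : Submodule ℝ (Lp ℝ 2 μ) where
  carrier := {a | ∀ x, S hs x a ∈ A}
  add_mem' := fun ha hb x => by rw [map_add]; exact A.add_mem (ha x) (hb x)
  zero_mem' := fun x => by rw [map_zero]; exact A.zero_mem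
  smul_mem' := fun t a ha x => by rw [map_smul]; exact A.smul_mem t (ha x)

theorem mem_invSub (hs : IsStationary μ) {A : Submodule ℝ (Lp ℝ 2 μ)} {a : Lp ℝ 2 μ} :
    a ∈ invSub hs A ↔ a ∈ invariantPart A := by
  constructor
  · intro h
    have h0 := h 0
    rw [S_zero] at h0
    exact ⟨h0, fun x => ⟨S hs x a, h x, S_coe hs x a⟩⟩
  · rintro ⟨_, h⟩ x
    obtain ⟨b, hb, hb2⟩ := h x
    rw [← eq_S hs hb2]
    exact hb

theorem invSub_closed (hs : IsStationary μ) {A : Submodule ℝ (Lp ℝ 2 μ)}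
    (hA : IsClosed (A : Set (Lp ℝ 2 μ))) : IsClosed (invSub hs A : Set (Lp ℝ 2 μ)) := by
  have : (invSub hs A : Set (Lp ℝ 2 μ)) = ⋂ x : ℂ, (S hs x) ⁻¹' A := by
    ext a
    simp only [Set.mem_iInter, Set.mem_preimage]
    rfl
  rw [this]
  exact isClosed_iInter fun x => hA.preimage (S hs x).continuous

/-- **the structure of independent splittings** -/
theorem structure_iff (hs : IsStationary μ) (h2 : Integrable (fun f : MW => f 0 ^ 2) μ)
    (A : Submodule ℝ (Lp ℝ 2 μ)) (hAc : IsClosed (A : Set (Lp ℝ 2 μ))) (hA : A ≤ values μ) :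
    Independent A (Aᗮ ⊓ values μ) ↔
      (∀ a ∈ invariantPart A, ∀ b ∈ invariantPart (Aᗮ ⊓ values μ), IndepFun a b μ) ∧
      ∀ k ∈ values μ, (∀ a ∈ invariantPart A, ∫ f, a f * k f ∂μ = 0) →
        (∀ b ∈ invariantPart (Aᗮ ⊓ values μ), ∫ f, b f * k f ∂μ = 0) →
        μ.map k = gaussianReal 0 (∫ f, k f ^ 2 ∂μ).toNNReal ∧
        ∀ c ∈ values μ, ∫ f, k f * c f ∂μ = 0 → IndepFun k c μ := by
  have hsq : ∀ k : Lp ℝ 2 μ, ∫ f, k f ^ 2 ∂μ = ‖k‖ ^ 2 := fun k => by
    rw [← real_inner_self_eq_norm_sq, ← inner_int]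
    exact integral_congr_ae (Eventually.of_forall fun f => pow_two _)
  simp only [hsq, inner_int]
  set B := Aᗮ ⊓ values μ with hB
  have hBc : IsClosed (B : Set (Lp ℝ 2 μ)) := by
    rw [hB, Submodule.coe_inf]
    exact (Submodule.isClosed_orthogonal A).inter values_closed
  have hBH : B ≤ values μ := inf_le_right
  have orth : ∀ a ∈ A, ∀ b ∈ B, ⟪a, b⟫_ℝ = 0 := fun a ha b hb =>
    (Submodule.mem_orthogonal A b).1 hb.1 a ha
  constructor
  · intro h
    have hch := (indep_iff_ch A B).1 h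
    refine ⟨fun a ha b hb => h a ha.1 b hb.1, fun k hk hk1 hk2 => ?_⟩
    have hex : ∀ c ∈ values μ, ex c k = 0 := fun c hc => ex_perp hs h2 hAc hA hch hk hk1 hk2 hc
    have hk0 : ∀ s : ℝ, ch (s • k) = Complex.exp (-((s ^ 2 * ‖k‖ ^ 2 / 2 : ℝ) : ℂ)) := by
      intro s
      have h3 := ch_line (c := 0) (k := k) (fun s => hex _ (by
        rw [zero_add]; exact (values μ).smul_mem s hk)) s
      rw [zero_add, inner_zero_right, mul_zero, zero_add, ch_zero, one_mul] at h3
      exact h3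
    refine ⟨map_gauss hk0, fun c hc hkc => indep_of_ch fun s t => ?_⟩
    have h3 := ch_line (c := t • c) (k := k) (fun s => hex _
      ((values μ).add_mem ((values μ).smul_mem t hc) ((values μ).smul_mem s hk))) s
    rw [inner_smul_right, hkc, mul_zero, mul_zero, zero_add] at h3
    rw [add_comm, h3, hk0, mul_comm]
  · rintro ⟨h1, h3⟩
    rw [indep_iff_ch]
    intro a ha b hb
    have hgk : ∀ k : Lp ℝ 2 μ, μ.map k = gaussianReal 0 (‖k‖ ^ 2).toNNReal →
        ch k = Complex.exp (-((‖k‖ ^ 2 / 2 : ℝ) : ℂ)) := by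
      intro k hk
      have hm : AEMeasurable k μ := (Lp.stronglyMeasurable k).measurable.aemeasurable
      have e1 : charFun (μ.map k) 1 = ch k := by
        rw [charFun_apply_real, integral_map hm (by fun_prop)]
        unfold ch
        congr 1
        funext f
        congr 1
        push_cast
        ring
      rw [← e1, hk, charFun_gaussianReal, Real.coe_toNNReal _ (sq_nonneg _)]
      congr 1
      push_cast
      ring
    set A₀ := invSub hs A with hA₀
    set B₀ := invSub hs B with hB₀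
    have : CompleteSpace A₀ := (invSub_closed hs hAc).completeSpace_coe
    have : CompleteSpace B₀ := (invSub_closed hs hBc).completeSpace_coe
    set a₀ := A₀.starProjection a with ha₀
    set b₀ := B₀.starProjection b with hb₀
    have ma₀ : a₀ ∈ A₀ := Submodule.starProjection_apply_mem A₀ a
    have mb₀ : b₀ ∈ B₀ := Submodule.starProjection_apply_mem B₀ b
    have ia₀ := (mem_invSub hs).1 ma₀
    have ib₀ := (mem_invSub hs).1 mb₀
    have pa : ∀ v ∈ A₀, ⟪v, a - a₀⟫_ℝ = 0 :=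
      (Submodule.mem_orthogonal A₀ _).1 (Submodule.sub_starProjection_mem_orthogonal a)
    have pb : ∀ v ∈ B₀, ⟪v, b - b₀⟫_ℝ = 0 :=
      (Submodule.mem_orthogonal B₀ _).1 (Submodule.sub_starProjection_mem_orthogonal b)
    have ha' : a - a₀ ∈ A := A.sub_mem ha ia₀.1
    have hb' : b - b₀ ∈ B := B.sub_mem hb ib₀.1
    -- the three elements orthogonal to the invariant parts
    have ka := h3 (a - a₀) (hA ha') (fun v hv => pa v ((mem_invSub hs).2 hv))
      (fun v hv => by rw [real_inner_comm]; exact orth _ ha' v hv.1)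
    have kb := h3 (b - b₀) (hBH hb') (fun v hv => orth v hv.1 _ hb')
      (fun v hv => pb v ((mem_invSub hs).2 hv))
    have kab := h3 ((a - a₀) + (b - b₀)) ((values μ).add_mem (hA ha') (hBH hb'))
      (fun v hv => by
        rw [inner_add_right, pa v ((mem_invSub hs).2 hv), orth v hv.1 _ hb', add_zero])
      (fun v hv => by
        rw [inner_add_right, pb v ((mem_invSub hs).2 hv), real_inner_comm, orth _ ha' v hv.1,
          add_zero])
    have e1 : ch a = ch (a - a₀) * ch a₀ := by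
      have h4 := ka.2 a₀ (hA ia₀.1) (by rw [real_inner_comm]; exact pa _ ma₀)
      have h5 := ch_of_indep h4
      rwa [sub_add_cancel] at h5
    have e2 : ch b = ch (b - b₀) * ch b₀ := by
      have h4 := kb.2 b₀ (hBH ib₀.1) (by rw [real_inner_comm]; exact pb _ mb₀)
      have h5 := ch_of_indep h4
      rwa [sub_add_cancel] at h5
    have e3 : ch (a₀ + b₀) = ch a₀ * ch b₀ := ch_of_indep (h1 a₀ ia₀ b₀ ib₀)
    have e4 : ch (a + b) = ch ((a - a₀) + (b - b₀)) * ch (a₀ + b₀) := by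
      have h4 := kab.2 (a₀ + b₀) ((values μ).add_mem (hA ia₀.1) (hBH ib₀.1)) (by
        rw [inner_add_left, inner_add_right, inner_add_right, real_inner_comm, pa _ ma₀,
          orth _ ha' _ ib₀.1, real_inner_comm, orth _ ia₀.1 _ hb', real_inner_comm, pb _ mb₀]
        simp)
      have h5 := ch_of_indep h4
      have e : a - a₀ + (b - b₀) + (a₀ + b₀) = a + b := by abel
      rwa [e] at h5
    have e5 : ‖(a - a₀) + (b - b₀)‖ ^ 2 = ‖a - a₀‖ ^ 2 + ‖b - b₀‖ ^ 2 := by
      have := norm_add_sq_real (a - a₀) (b - b₀)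
      rw [orth _ ha' _ hb'] at this
      linarith
    rw [e4, e3, e1, e2, hgk _ kab.1, hgk _ ka.1, hgk _ kb.1, e5]
    have e6 : Complex.exp (-(((‖a - a₀‖ ^ 2 + ‖b - b₀‖ ^ 2) / 2 : ℝ) : ℂ)) =
        Complex.exp (-((‖a - a₀‖ ^ 2 / 2 : ℝ) : ℂ)) * Complex.exp (-((‖b - b₀‖ ^ 2 / 2 : ℝ) : ℂ)) := by
      rw [← Complex.exp_add]
      congr 1
      push_cast
      ring
    rw [e6]
    ring

/-- the general splitting, with characteristic functions -/
theorem split_iff (hs : IsStationary μ) (h2 : Integrable (fun f : MW => f 0 ^ 2) μ)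
    (A : Submodule ℝ (Lp ℝ 2 μ)) (hAc : IsClosed (A : Set (Lp ℝ 2 μ))) (hA : A ≤ values μ)
    (nA : NoInvariant A) (nB : NoInvariant (Aᗮ ⊓ values μ)) :
    IsGaussianLaw μ ↔ ∀ a ∈ A, ∀ b ∈ Aᗮ ⊓ values μ, ch (a + b) = ch a * ch b := by
  constructor
  · intro hG a ha b hb
    have h1 : ‖a + b‖ ^ 2 = ‖a‖ ^ 2 + ‖b‖ ^ 2 := by
      have h3 : ⟪a, b⟫_ℝ = 0 := (Submodule.mem_orthogonal A b).1 hb.1 a ha
      have := norm_add_sq_real a b
      rw [h3] at this
      linarith
    rw [ch_gauss hs h2 hG ((values μ).add_mem (hA ha) hb.2), ch_gauss hs h2 hG (hA ha),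
      ch_gauss hs h2 hG hb.2, ← Complex.exp_add, h1]
    congr 1
    push_cast
    ring
  · intro h
    refine gauss_of_ex hs h2 fun c hc k hk => ex_perp hs h2 hAc hA h hk ?_ ?_ hc
    · intro a ha
      rw [nA a ha.1 ha.2, inner_zero_left]
    · intro b hb
      rw [nB b hb.1 hb.2, inner_zero_left]

/-- **the general splitting** -/
theorem split (hs : IsStationary μ) (h2 : Integrable (fun f : MW => f 0 ^ 2) μ)
    (A : Submodule ℝ (Lp ℝ 2 μ)) (hAc : IsClosed (A : Set (Lp ℝ 2 μ))) (hA : A ≤ values μ)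
    (nA : NoInvariant A) (nB : NoInvariant (Aᗮ ⊓ values μ)) :
    IsGaussianLaw μ ↔ Independent A (Aᗮ ⊓ values μ) :=
  (split_iff hs h2 A hAc hA nA nB).trans (indep_iff_ch _ _).symm

/-- symmetric and antisymmetric parts -/
theorem inv (hs : IsStationary μ) (h2 : Integrable (fun f : MW => f 0 ^ 2) μ)
    (R : ℂ ≃ₗᵢ[ℝ] ℂ) (hR : ∀ y, R (R y) = y)
    (hcov : ∀ y z : ℂ, ∫ f : MW, f (R y) * f (R z) ∂μ = ∫ f : MW, f y * f z ∂μ)
    (hA : NoInvariant (Submodule.span ℝ
      (Set.range fun y => V hs h2 y + V hs h2 (R y))).topologicalClosure) :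
    IsGaussianLaw μ ↔
      IndepFun (fun (f : MW) (y : ℂ) => f y + f (R y)) (fun (f : MW) (y : ℂ) => f y - f (R y)) μ := by
  have hX : ∀ y : ℂ, MemLp (fun f : MW => f y + f (R y)) 2 μ := fun y =>
    (eval_two hs h2 y).add (eval_two hs h2 (R y))
  have hY : ∀ y : ℂ, MemLp (fun f : MW => f y - f (R y)) 2 μ := fun y =>
    (eval_two hs h2 y).sub (eval_two hs h2 (R y))
  have e1 : (Submodule.span ℝ (Set.range fun y => V hs h2 y + V hs h2 (R y))).topologicalClosure =
      (Submodule.span ℝ (Set.range fun y => (hX y).toLp _)).topologicalClosure := by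
    have : (fun y => V hs h2 y + V hs h2 (R y)) = fun y => (hX y).toLp _ := by
      funext y
      exact Lp.ext (by
        filter_upwards [Lp.coeFn_add (V hs h2 y) (V hs h2 (R y)), V_coe hs h2 y,
          V_coe hs h2 (R y), MemLp.coeFn_toLp (hX y)] with f a1 a3 a4 a5
        rw [a1, a5, Pi.add_apply, a3, a4])
    rw [this]
  have e2 : (Submodule.span ℝ (Set.range fun y => V hs h2 y - V hs h2 (R y))).topologicalClosure =
      (Submodule.span ℝ (Set.range fun y => (hY y).toLp _)).topologicalClosure := by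
    have : (fun y => V hs h2 y - V hs h2 (R y)) = fun y => (hY y).toLp _ := by
      funext y
      exact Lp.ext (by
        filter_upwards [Lp.coeFn_sub (V hs h2 y) (V hs h2 (R y)), V_coe hs h2 y,
          V_coe hs h2 (R y), MemLp.coeFn_toLp (hY y)] with f a1 a3 a4 a5
        rw [a1, a5, Pi.sub_apply, a3, a4])
    rw [this]
  have hp := inv_perp hs h2 R hR hcov
  have h1 := split_iff hs h2 _ (Submodule.isClosed_topologicalClosure _) (inv_le hs h2 R) hA
    (by rw [hp]; exact inv_noB hs h2 R hR hcov)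
  rw [hp] at h1
  have h3 := process_indep (μ := μ) (fun (y : ℂ) (f : MW) => f y + f (R y))
    (fun (y : ℂ) (f : MW) => f y - f (R y)) hX hY _ _ e1 e2
  exact h1.trans h3.symm

/-- **even and odd parts** -/
theorem parity (hs : IsStationary μ) (h2 : Integrable (fun f : MW => f 0 ^ 2) μ) :
    IsGaussianLaw μ ↔
      IndepFun (fun (f : MW) (y : ℂ) => f y + f (-y)) (fun (f : MW) (y : ℂ) => f y - f (-y)) μ := by
  have h := inv hs h2 (LinearIsometryEquiv.neg ℝ) (fun y => by simp) (by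
    intro y z
    simpa using cov_even hs h2 y z) (by
    have := inv_noA_neg hs h2
    simpa using this)
  simpa using h

/-- **symmetric and antisymmetric parts** -/
theorem reflection (hs : IsStationary μ) (h2 : Integrable (fun f : MW => f 0 ^ 2) μ)
    (hcov : ∀ w w' : ℂ, ∫ f : MW, f w * f w' ∂μ = J0 ‖w - w'‖)
    (R : ℂ ≃ₗᵢ[ℝ] ℂ) (hR : ∀ y, R (R y) = y) (hne : ∃ y, R y ≠ y) :
    IsGaussianLaw μ ↔
      IndepFun (fun (f : MW) (y : ℂ) => f y + f (R y)) (fun (f : MW) (y : ℂ) => f y - f (R y)) μ := by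
  refine inv hs h2 R hR (fun y z => ?_) (inv_noA hs h2 hcov R hR hne)
  rw [hcov, hcov, ← map_sub, R.norm_map]

/-- **partial waves** -/
theorem partial_waves (hs : IsStationary μ) (h2 : Integrable (fun f : MW => f 0 ^ 2) μ)
    (hcov : ∀ w w' : ℂ, ∫ f : MW, f w * f w' ∂μ = J0 ‖w - w'‖)
    (N : Set ℕ) (hN : N.Nonempty) (hN' : Nᶜ.Nonempty) :
    IsGaussianLaw μ ↔
      IndepFun (fun (f : MW) (p : N × ℂ) => partialWave p.1 f p.2)
        (fun (f : MW) (p : (Nᶜ : Set ℕ) × ℂ) => partialWave p.1 f p.2) μ := by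
  obtain ⟨n, hn⟩ := hN
  obtain ⟨m, hm⟩ := hN'
  have hp := pws_perp hs h2 hcov N
  have h1 := split_iff hs h2 (PWS hs h2 N) (Submodule.isClosed_topologicalClosure _)
    (pws_le hs h2 N) (pws_noInv hs h2 hcov N hm)
    (by rw [hp]; exact pws_noInv hs h2 hcov Nᶜ (m := n) (fun h => h hn))
  rw [hp] at h1
  have h3 := process_indep (μ := μ) (fun (p : N × ℂ) (f : MW) => partialWave p.1 f p.2)
    (fun (p : (Nᶜ : Set ℕ) × ℂ) (f : MW) => partialWave p.1 f p.2)
    (fun p => pw_two hs h2 p.1 p.2) (fun p => pw_two hs h2 p.1 p.2)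
    (PWS hs h2 N) (PWS hs h2 Nᶜ) rfl rfl
  exact h1.trans h3.symm

end

end Pool.Agent.Helper26.Ip
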