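import Pool.Agent.Helper26.Ip.Defs

/-!
# Independent parts of stationary waves: tools (MP_6b977f_mp)
-/

set_option autoImplicit false
set_option linter.unusedSectionVars false
open MeasureTheory Filter Topology ProbabilityTheory
open scoped ContDiff ENNReal

namespace Pool.Agent.Helper26.Ip

open Pool.Agent.N661.BR (MW J0 IsStationary shift meas_eval meas_shift IsGaussianLaw lin meas_lin)
open Pool.Agent.Helper37.BC
open Complex (I)

noncomputable section

section general

variable {Ω : Type*} [MeasurableSpace Ω] {μ : Measure Ω}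

/-- the characteristic function at an element of `L²` -/
def ch (g : Lp ℝ 2 μ) : ℂ := ∫ f, Complex.exp (I * ((g f : ℝ) : ℂ)) ∂μ

/-- the excess correlation of `k` with `exp (i g)` -/
def ex (g k : Lp ℝ 2 μ) : ℂ :=
  (∫ f, (k f : ℂ) * Complex.exp (I * ((g f : ℝ) : ℂ)) ∂μ) -
    I * ((∫ f, k f * g f ∂μ : ℝ) : ℂ) * ch g

end general

variable {μ : Measure MW} [IsProbabilityMeasure μ]

/-- the value at `y` -/
def V (hs : IsStationary μ) (h2 : Integrable (fun f : MW => f 0 ^ 2) μ) (y : ℂ) : Lp ℝ 2 μ :=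
  (eval_two hs h2 y).toLp _

/-- the translation -/
def S (hs : IsStationary μ) (x : ℂ) : Lp ℝ 2 μ →ₗᵢ[ℝ] Lp ℝ 2 μ :=
  Lp.compMeasurePreservingₗᵢ ℝ (shift x) (mp_shift hs x)

theorem V_coe (hs : IsStationary μ) (h2 : Integrable (fun f : MW => f 0 ^ 2) μ) (y : ℂ) :
    V hs h2 y =ᵐ[μ] fun f : MW => f y := MemLp.coeFn_toLp _

theorem S_coe (hs : IsStationary μ) (x : ℂ) (g : Lp ℝ 2 μ) :
    S hs x g =ᵐ[μ] fun f => g (shift x f) :=
  Lp.coeFn_compMeasurePreserving g (mp_shift hs x)

theorem eq_S (hs : IsStationary μ) {x : ℂ} {a b : Lp ℝ 2 μ}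
    (h : b =ᵐ[μ] fun f => a (shift x f)) : b = S hs x a :=
  Lp.ext (h.trans (S_coe hs x a).symm)

theorem S_V (hs : IsStationary μ) (h2 : Integrable (fun f : MW => f 0 ^ 2) μ) (x y : ℂ) :
    S hs x (V hs h2 y) = V hs h2 (y + x) := by
  refine Lp.ext ?_
  refine (S_coe hs x _).trans ?_
  have h1 := (mp_shift hs x).quasiMeasurePreserving.ae_eq_comp (V_coe hs h2 y)
  refine h1.trans ?_
  exact (V_coe hs h2 (y + x)).symm

theorem S_zero (hs : IsStationary μ) (g : Lp ℝ 2 μ) : S hs 0 g = g := by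
  refine Lp.ext ((S_coe hs 0 g).trans (Eventually.of_forall fun f => ?_))
  have : shift 0 f = f := Subtype.ext (funext fun y => by show f (y + 0) = f y; rw [add_zero])
  show g (shift 0 f) = g f
  rw [this]

theorem S_add (hs : IsStationary μ) (x y : ℂ) (g : Lp ℝ 2 μ) :
    S hs (x + y) g = S hs x (S hs y g) := by
  refine Lp.ext ((S_coe hs (x + y) g).trans ?_)
  refine EventuallyEq.trans ?_ (S_coe hs x _).symm
  have h1 := (mp_shift hs x).quasiMeasurePreserving.ae_eq_comp (S_coe hs y g)
  refine EventuallyEq.trans ?_ h1.symm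
  refine Eventually.of_forall fun f => ?_
  show g (shift (x + y) f) = g (shift y (shift x f))
  have : shift (x + y) f = shift y (shift x f) :=
    Subtype.ext (funext fun z => by
      show f (z + (x + y)) = f (z + y + x)
      rw [add_comm x y, add_assoc])
  rw [this]

theorem set_eq (hs : IsStationary μ) (h2 : Integrable (fun f : MW => f 0 ^ 2) μ) :
    {g : Lp ℝ 2 μ | ∃ y : ℂ, g =ᵐ[μ] fun f : MW => f y} = Set.range (V hs h2) := by
  ext g
  constructor
  · rintro ⟨y, hy⟩
    exact ⟨y, (Lp.ext (hy.trans (V_coe hs h2 y).symm)).symm⟩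
  · rintro ⟨y, rfl⟩
    exact ⟨y, V_coe hs h2 y⟩

theorem values_eq (hs : IsStationary μ) (h2 : Integrable (fun f : MW => f 0 ^ 2) μ) :
    values μ = (Submodule.span ℝ (Set.range (V hs h2))).topologicalClosure := by
  unfold values
  rw [set_eq hs h2]

theorem V_mem (hs : IsStationary μ) (h2 : Integrable (fun f : MW => f 0 ^ 2) μ) (y : ℂ) :
    V hs h2 y ∈ values μ := by
  rw [values_eq hs h2]
  exact Submodule.le_topologicalClosure _ (Submodule.subset_span ⟨y, rfl⟩)

theorem values_closed : IsClosed (values μ : Set (Lp ℝ 2 μ)) :=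
  Submodule.isClosed_topologicalClosure _

/-- induction on the closed span of the values -/
theorem values_induction (hs : IsStationary μ) (h2 : Integrable (fun f : MW => f 0 ^ 2) μ)
    {p : Lp ℝ 2 μ → Prop} (hc : IsClosed {g | p g}) (hV : ∀ y, p (V hs h2 y))
    (h0 : p 0) (ha : ∀ g k, p g → p k → p (g + k)) (hm : ∀ (t : ℝ) g, p g → p (t • g))
    {g : Lp ℝ 2 μ} (hg : g ∈ values μ) : p g := by
  rw [values_eq hs h2] at hg
  have h1 : ((Submodule.span ℝ (Set.range (V hs h2)) : Submodule ℝ (Lp ℝ 2 μ)) :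
      Set (Lp ℝ 2 μ)) ⊆ {g | p g} := by
    intro k hk
    induction hk using Submodule.span_induction with
    | mem x hx => obtain ⟨y, rfl⟩ := hx; exact hV y
    | zero => exact h0
    | add x y _ _ hx hy => exact ha x y hx hy
    | smul t x _ hx => exact hm t x hx
  exact (hc.closure_subset_iff.2 h1) hg

theorem S_values (hs : IsStationary μ) (h2 : Integrable (fun f : MW => f 0 ^ 2) μ) (x : ℂ)
    {g : Lp ℝ 2 μ} (hg : g ∈ values μ) : S hs x g ∈ values μ := by
  refine values_induction hs h2 (p := fun g => S hs x g ∈ values μ) ?_ ?_ ?_ ?_ ?_ hg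
  · exact values_closed.preimage (S hs x).continuous
  · intro y
    rw [S_V hs h2]
    exact V_mem hs h2 _
  · rw [map_zero]
    exact Submodule.zero_mem _
  · intro g k hg hk
    rw [map_add]
    exact Submodule.add_mem _ hg hk
  · intro t g hg
    rw [map_smul]
    exact Submodule.smul_mem _ t hg

end

end Pool.Agent.Helper26.Ip
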