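import Pool.Agent.Helper26.Ip.Tools

/-!
# Independent parts of stationary waves: the core (MP_6b977f_mp)
-/

set_option autoImplicit false
set_option linter.unusedSectionVars false
open MeasureTheory Filter Topology ProbabilityTheory
open scoped ContDiff ENNReal InnerProductSpace

namespace Pool.Agent.Helper26.Ip

open Complex (I)

noncomputable section

variable {Ω : Type*} [MeasurableSpace Ω] {μ : Measure Ω} [IsProbabilityMeasure μ]

/-- the facts on characteristic functions used in the core -/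
structure Facts (μ : Measure Ω) : Prop where
  ch_le : ∀ g : Lp ℝ 2 μ, ‖ch g‖ ≤ 1
  exL : ∀ g : Lp ℝ 2 μ, ∃ T : Lp ℝ 2 μ →L[ℝ] ℂ, ∀ k, T k = ex g k
  ex_zero : ∀ k : Lp ℝ 2 μ, ∫ f, k f ∂μ = 0 → ex 0 k = 0
  ex_add : ∀ a b k : Lp ℝ 2 μ, (∀ s : ℝ, ch (a + s • k + b) = ch (a + s • k) * ch b) →
    ∫ f, k f * b f ∂μ = 0 → ex (a + b) k = ch b * ex a k
  eta : ∃ η : Lp ℝ 2 μ → ℝ,
    (∀ b k : Lp ℝ 2 μ, ∫ f, b f ∂μ = 0 → ∫ f, k f ∂μ = 0 → ‖ex b k‖ ≤ η b * ‖k‖) ∧
    ∀ (b : ℝ → Lp ℝ 2 μ) (D : Lp ℝ 2 μ),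
      Tendsto (fun h : ℝ => h⁻¹ • b h) (𝓝[>] 0) (𝓝 D) →
        Tendsto (fun h : ℝ => h⁻¹ * η (b h)) (𝓝[>] 0) (𝓝 0)

theorem inner_int (k b : Lp ℝ 2 μ) : ∫ f, k f * b f ∂μ = ⟪k, b⟫_ℝ := by
  rw [L2.inner_def]
  refine integral_congr_ae (Eventually.of_forall fun f => ?_)
  simp [mul_comm]

/-- the setting of the core -/
structure Setting (S : ℂ → Lp ℝ 2 μ →ₗᵢ[ℝ] Lp ℝ 2 μ) (H A B : Submodule ℝ (Lp ℝ 2 μ)) : Prop where
  S0 : ∀ g, S 0 g = g
  Sadd : ∀ x y g, S (x + y) g = S x (S y g)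
  Sex : ∀ x g k, ex (S x g) (S x k) = ex g k
  hHc : IsClosed (H : Set (Lp ℝ 2 μ))
  hAc : IsClosed (A : Set (Lp ℝ 2 μ))
  hBc : IsClosed (B : Set (Lp ℝ 2 μ))
  hAH : A ≤ H
  hBH : B ≤ H
  orth : ∀ a ∈ A, ∀ b ∈ B, ⟪a, b⟫_ℝ = 0
  sum : ∀ c ∈ H, ∃ a ∈ A, ∃ b ∈ B, c = a + b
  hHS : ∀ x, ∀ c ∈ H, S x c ∈ H
  hmean : ∀ c ∈ H, ∫ f, c f ∂μ = 0
  hlip : ∃ C : ℝ, 0 ≤ C ∧ ∀ x, ∀ c ∈ H, ‖S x c - c‖ ≤ C * ‖x‖ * ‖c‖
  hgen : ∀ e : ℂ, ∀ c ∈ H, ∃ D : Lp ℝ 2 μ,
      Tendsto (fun h : ℝ => h⁻¹ • (S (h * e) c - c)) (𝓝[>] 0) (𝓝 D)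
  hind : ∀ a ∈ A, ∀ b ∈ B, ch (a + b) = ch a * ch b

variable {S : ℂ → Lp ℝ 2 μ →ₗᵢ[ℝ] Lp ℝ 2 μ} {H A B : Submodule ℝ (Lp ℝ 2 μ)}

namespace Setting

/-- the symmetric setting -/
theorem symm (h : Setting S H A B) : Setting S H B A where
  S0 := h.S0
  Sadd := h.Sadd
  Sex := h.Sex
  hHc := h.hHc
  hAc := h.hBc
  hBc := h.hAc
  hAH := h.hBH
  hBH := h.hAH
  orth := fun a ha b hb => by rw [real_inner_comm]; exact h.orth b hb a ha
  sum := fun c hc => by
    obtain ⟨a, ha, b, hb, e⟩ := h.sum c hc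
    exact ⟨b, hb, a, ha, by rw [e, add_comm]⟩
  hHS := h.hHS
  hmean := h.hmean
  hlip := h.hlip
  hgen := h.hgen
  hind := fun a ha b hb => by rw [add_comm, h.hind b hb a ha, mul_comm]

/-- the factorisation of the excess -/
theorem ex_A (h : Setting S H A B) (F : Facts μ) {a b k : Lp ℝ 2 μ} (ha : a ∈ A) (hb : b ∈ B)
    (hk : k ∈ A) : ex (a + b) k = ch b * ex a k :=
  F.ex_add a b k (fun s => h.hind _ (A.add_mem ha (A.smul_mem s hk)) _ hb)
    (by rw [inner_int]; exact h.orth k hk b hb)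

theorem ex_B (h : Setting S H A B) (F : Facts μ) {a b k : Lp ℝ 2 μ} (ha : a ∈ A) (hb : b ∈ B)
    (hk : k ∈ B) : ex (a + b) k = ch a * ex b k := by
  rw [add_comm a b]
  refine F.ex_add b a k (fun s => ?_) (by rw [inner_int, real_inner_comm]; exact h.orth a ha k hk)
  rw [add_comm, h.hind a ha _ (B.add_mem hb (B.smul_mem s hk)), mul_comm]

/-- the excess of an element of `A` vanishes on `B` -/
theorem ex_cross (h : Setting S H A B) (F : Facts μ) {a k : Lp ℝ 2 μ} (ha : a ∈ A)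
    (hk : k ∈ B) : ex a k = 0 := by
  have := h.ex_B F ha B.zero_mem hk
  rw [add_zero, F.ex_zero k (h.hmean k (h.hBH hk)), mul_zero] at this
  exact this

/-- **the key estimate**: translates of `B` are not seen by the excess of an element of `A` -/
theorem ex_trans (h : Setting S H A B) (F : Facts μ) {a : Lp ℝ 2 μ} (ha : a ∈ A) (e : ℂ)
    {q : Lp ℝ 2 μ} (hq : q ∈ B) : ex a (S (-e) q) = 0 := by
  have : CompleteSpace B := h.hBc.completeSpace_coe
  set Q : Lp ℝ 2 μ →L[ℝ] Lp ℝ 2 μ := B.starProjection with hQ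
  have Qmem : ∀ k, Q k ∈ B := fun k => Submodule.starProjection_apply_mem B k
  have Qnorm : ∀ k, ‖Q k‖ ≤ ‖k‖ := fun k => Submodule.norm_starProjection_apply_le B k
  have QB : ∀ k ∈ B, Q k = k := fun k hk => Submodule.starProjection_eq_self_iff.2 hk
  have QA : ∀ k ∈ A, Q k = 0 := fun k hk => by
    refine (Submodule.starProjection_apply_eq_zero_iff (K := B)).2 ?_
    rw [Submodule.mem_orthogonal]
    intro b hb
    rw [real_inner_comm]
    exact h.orth k hk b hb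
  have QH : ∀ c ∈ H, c - Q c ∈ A := fun c hc => by
    obtain ⟨a', ha', b', hb', e1⟩ := h.sum c hc
    rw [e1, map_add, QA a' ha', QB b' hb', zero_add, add_sub_cancel_right]
    exact ha'
  obtain ⟨E, hE⟩ := F.exL a
  obtain ⟨η, hη1, hη2⟩ := F.eta
  obtain ⟨C, hC0, hC⟩ := h.hlip
  -- the functionals
  set T : ℝ → (Lp ℝ 2 μ →L[ℝ] ℂ) := fun s =>
    E.comp ((S (-(s * e))).toContinuousLinearMap.comp Q) with hT
  have hTa : ∀ s k, T s k = ex a (S (-(s * e)) (Q k)) := fun s k => hE _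
  have hinv : ∀ (x : ℂ) (g : Lp ℝ 2 μ), S x (S (-x) g) = g := fun x g => by
    rw [← h.Sadd, add_neg_cancel, h.S0]
  -- the Lipschitz bound
  have hSlip : ∀ (x y : ℂ) (c : Lp ℝ 2 μ), c ∈ H → ‖S x c - S y c‖ ≤ C * ‖x - y‖ * ‖c‖ := by
    intro x y c hc
    have : S x c = S y (S (x - y) c) := by rw [← h.Sadd, add_sub_cancel]
    rw [this, ← map_sub, LinearIsometry.norm_map]
    exact hC _ c hc
  have hcont : Continuous fun s => ‖T s‖ := by
    have hl : ∀ s s' : ℝ, ‖T s - T s'‖ ≤ ‖E‖ * (C * ‖e‖) * |s - s'| := by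
      intro s s'
      refine ContinuousLinearMap.opNorm_le_bound _ (by positivity) fun k => ?_
      have e1 : (T s - T s') k = E (S (-(s * e)) (Q k) - S (-(s' * e)) (Q k)) := by
        rw [map_sub]; rfl
      rw [e1]
      have h1 := hSlip (-(s * e)) (-(s' * e)) (Q k) (h.hBH (Qmem k))
      have e2 : ‖-((s:ℂ) * e) - -((s':ℂ) * e)‖ = |s - s'| * ‖e‖ := by
        have : -((s:ℂ) * e) - -((s':ℂ) * e) = -(((s - s' : ℝ) : ℂ) * e) := by push_cast; ring
        rw [this, norm_neg, norm_mul, Complex.norm_real, Real.norm_eq_abs]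
      rw [e2] at h1
      calc ‖E (S (-(s * e)) (Q k) - S (-(s' * e)) (Q k))‖
          ≤ ‖E‖ * ‖S (-(s * e)) (Q k) - S (-(s' * e)) (Q k)‖ := E.le_opNorm _
        _ ≤ ‖E‖ * (C * (|s - s'| * ‖e‖) * ‖Q k‖) := by gcongr
        _ ≤ ‖E‖ * (C * (|s - s'| * ‖e‖) * ‖k‖) := by gcongr; exact Qnorm k
        _ = ‖E‖ * (C * ‖e‖) * |s - s'| * ‖k‖ := by ring
    have hTc : Continuous T := by
      have : LipschitzWith (Real.toNNReal (‖E‖ * (C * ‖e‖))) T := by
        refine LipschitzWith.of_dist_le_mul fun s s' => ?_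
        rw [dist_eq_norm, Real.dist_eq, Real.coe_toNNReal _ (by positivity)]
        exact hl s s'
      exact this.continuous
    exact hTc.norm
  -- the differential inequality
  have key : ∀ s : ℝ, ∀ hh : ℝ, ‖T (s + hh)‖ ≤ ‖T s‖ +
      |η (Q (S (hh * e) (S (s * e) a - Q (S (s * e) a)) -
        (S (s * e) a - Q (S (s * e) a))))| := by
    intro s hh
    set a' : Lp ℝ 2 μ := S (s * e) a - Q (S (s * e) a) with ha'
    have ha'A : a' ∈ A := QH _ (h.hHS _ _ (h.hAH ha))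
    refine ContinuousLinearMap.opNorm_le_bound _ (by positivity) fun k => ?_
    rw [hTa]
    set q' : Lp ℝ 2 μ := Q k with hq'
    have hq'B : q' ∈ B := Qmem k
    set u : Lp ℝ 2 μ := S (-(hh * e)) q' with hu
    have huH : u ∈ H := h.hHS _ _ (h.hBH hq'B)
    have hun : ‖u‖ ≤ ‖k‖ := by rw [hu, LinearIsometry.norm_map]; exact Qnorm k
    have e0 : S (-(((s + hh : ℝ) : ℂ) * e)) q' = S (-(s * e)) u := by
      rw [hu, ← h.Sadd]
      congr 1
      push_cast
      ring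
    have e1 : ex a (S (-(s * e)) u) =
        ex a (S (-(s * e)) (u - Q u)) + ex a (S (-(s * e)) (Q u)) := by
      rw [← hE, ← hE, ← hE, ← map_add, ← map_add, sub_add_cancel]
    have hk'A : u - Q u ∈ A := QH u huH
    -- the second part
    have e2 : ‖ex a (S (-(s * e)) (Q u))‖ ≤ ‖T s‖ * ‖k‖ := by
      rw [← hTa]
      exact ((T s).le_opNorm u).trans (by gcongr)
    -- the first part
    have e3 : ex a (S (-(s * e)) (u - Q u)) = ch (Q (S (s * e) a)) * ex a' (u - Q u) := by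
      have h1 := h.Sex (s * e) a (S (-(s * e)) (u - Q u))
      rw [hinv] at h1
      rw [← h1]
      have h3 : S (s * e) a = a' + Q (S (s * e) a) := by rw [ha', sub_add_cancel]
      conv_lhs => rw [h3]
      exact h.ex_A F ha'A (Qmem _) hk'A
    have e4 : ex a' (u - Q u) = ex a' u := by
      obtain ⟨E', hE'⟩ := F.exL a'
      rw [← hE', map_sub, hE', hE', h.ex_cross F ha'A (Qmem u), sub_zero]
    have e5 : ex a' u = ch (S (hh * e) a' - Q (S (hh * e) a')) * ex (Q (S (hh * e) a')) q' := by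
      have h1 := h.Sex (hh * e) a' u
      rw [hu, hinv] at h1
      rw [hu, ← h1]
      have h3 : S (hh * e) a' = (S (hh * e) a' - Q (S (hh * e) a')) + Q (S (hh * e) a') := by
        rw [sub_add_cancel]
      conv_lhs => rw [h3]
      exact h.ex_B F (QH _ (h.hHS _ _ (h.hAH ha'A))) (Qmem _) hq'B
    have e6 : Q (S (hh * e) a') = Q (S (hh * e) a' - a') := by
      rw [map_sub Q (S (hh * e) a') a', QA a' ha'A, sub_zero]
    have e7 : ‖ex a (S (-(s * e)) (u - Q u))‖ ≤ |η (Q (S (hh * e) a' - a'))| * ‖k‖ := by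
      rw [e3, e4, e5, norm_mul, norm_mul, e6]
      have h1 := F.ch_le (Q (S (s * e) a))
      have h3 := F.ch_le (S (hh * e) a' - Q (S (hh * e) a' - a'))
      have h4 := hη1 (Q (S (hh * e) a' - a')) q' (h.hmean _ (h.hBH (Qmem _)))
        (h.hmean _ (h.hBH hq'B))
      have h5 : ‖ex (Q (S (hh * e) a' - a')) q'‖ ≤ |η (Q (S (hh * e) a' - a'))| * ‖k‖ :=
        h4.trans (mul_le_mul (le_abs_self _) (Qnorm k) (norm_nonneg _) (abs_nonneg _))
      calc ‖ch (Q (S (s * e) a))‖ * (‖ch (S (hh * e) a' - Q (S (hh * e) a' - a'))‖ *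
            ‖ex (Q (S (hh * e) a' - a')) q'‖)
          ≤ 1 * (1 * (|η (Q (S (hh * e) a' - a'))| * ‖k‖)) := by gcongr
        _ = _ := by ring
    rw [e0, e1]
    refine (norm_add_le _ _).trans ?_
    rw [add_mul]
    linarith
  have hzero : ‖T 0‖ ≤ 0 := by
    refine ContinuousLinearMap.opNorm_le_bound _ le_rfl fun k => ?_
    rw [hTa]
    have : S (-(((0:ℝ):ℂ) * e)) (Q k) = Q k := by
      rw [Complex.ofReal_zero, zero_mul, neg_zero, h.S0]
    rw [this, h.ex_cross F ha (Qmem k)]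
    simp
  have hfin := image_le_of_liminf_slope_right_le_deriv_boundary (f := fun s => ‖T s‖) (a := 0)
    (b := 1) hcont.continuousOn (B := fun _ => 0) (B' := fun _ => 0) hzero continuousOn_const
    (fun x _ => hasDerivWithinAt_const _ _ _) (by
      intro s hs r hr
      refine Eventually.frequently ?_
      set a' : Lp ℝ 2 μ := S (s * e) a - Q (S (s * e) a) with ha'
      have ha'A : a' ∈ A := QH _ (h.hHS _ _ (h.hAH ha))
      obtain ⟨D, hD⟩ := h.hgen e a' (h.hAH ha'A)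
      have h1 : Tendsto (fun hh : ℝ => hh⁻¹ • Q (S (hh * e) a' - a')) (𝓝[>] 0) (𝓝 (Q D)) := by
        have := (Q.continuous.tendsto D).comp hD
        refine this.congr fun hh => ?_
        show Q (hh⁻¹ • _) = _
        rw [map_smul]
      have h3 := (hη2 _ _ h1).abs
      rw [abs_zero] at h3
      have h4 : Tendsto (fun z : ℝ => z - s) (𝓝[>] s) (𝓝[>] 0) := by
        refine tendsto_nhdsWithin_iff.2 ⟨?_, ?_⟩
        · have : Tendsto (fun z : ℝ => z - s) (𝓝 s) (𝓝 (s - s)) :=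
            (continuous_id.sub continuous_const).tendsto s
          rw [sub_self] at this
          exact this.mono_left nhdsWithin_le_nhds
        · filter_upwards [self_mem_nhdsWithin] with z hz
          exact Set.mem_Ioi.2 (sub_pos.2 (Set.mem_Ioi.1 hz))
      filter_upwards [(h3.comp h4).eventually (gt_mem_nhds hr), self_mem_nhdsWithin] with z hz hz'
      have hz0 : 0 < z - s := sub_pos.2 (Set.mem_Ioi.1 hz')
      have h5 := key s (z - s)
      rw [add_sub_cancel] at h5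
      rw [slope_def_field]
      have h6 : |(z - s)⁻¹ * η (Q (S (((z - s : ℝ) : ℂ) * e) a' - a'))| < r := hz
      rw [abs_mul, abs_of_pos (inv_pos.2 hz0)] at h6
      refine lt_of_le_of_lt ?_ h6
      rw [div_eq_inv_mul]
      gcongr
      linarith)
  have h1 := hfin (Set.right_mem_Icc.2 zero_le_one)
  have h3 : T 1 = 0 := norm_le_zero_iff.1 h1
  have h4 := hTa 1 q
  rw [h3, QB q hq] at h4
  simp only [Complex.ofReal_one, one_mul] at h4
  rw [← h4]
  rfl

/-- the excess of an element of `A` vanishes on the elements orthogonal to the invariant part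
of `A` -/
theorem ex_half (h : Setting S H A B) (F : Facts μ) {a : Lp ℝ 2 μ} (ha : a ∈ A)
    {k : Lp ℝ 2 μ} (hk : k ∈ H) (hkA : ∀ v ∈ A, (∀ x, S x v ∈ A) → ⟪v, k⟫_ℝ = 0) :
    ex a k = 0 := by
  have : CompleteSpace B := h.hBc.completeSpace_coe
  have : CompleteSpace H := h.hHc.completeSpace_coe
  obtain ⟨E, hE⟩ := F.exL a
  have main : ∀ φ : Lp ℝ 2 μ →L[ℝ] ℝ, (∀ x : ℂ, ∀ q ∈ B, φ (S x q) = 0) → φ k = 0 := by
    intro φ hφ
    set v₀ : Lp ℝ 2 μ := (InnerProductSpace.toDual ℝ (Lp ℝ 2 μ)).symm φ with hv₀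
    have hv : ∀ x, ⟪v₀, x⟫_ℝ = φ x := fun x => InnerProductSpace.toDual_symm_apply
    set v : Lp ℝ 2 μ := H.starProjection v₀ with hvd
    have hvH : v ∈ H := Submodule.starProjection_apply_mem H v₀
    have hvk : ∀ x ∈ H, ⟪v, x⟫_ℝ = φ x := by
      intro x hx
      rw [← hv x]
      have h1 : v₀ - v ∈ Hᗮ := Submodule.sub_starProjection_mem_orthogonal v₀
      have h3 := (Submodule.mem_orthogonal' H _).1 h1 x hx
      rw [inner_sub_left] at h3
      linarith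
    have hSA : ∀ x : ℂ, S x v ∈ A := by
      intro x
      obtain ⟨a', ha', b', hb', e1⟩ := h.sum (S x v) (h.hHS x v hvH)
      have h1 : ⟪S x v, b'⟫_ℝ = 0 := by
        have e2 : b' = S x (S (-x) b') := by rw [← h.Sadd, add_neg_cancel, h.S0]
        rw [e2, LinearIsometry.inner_map_map, hvk _ (h.hHS _ _ (h.hBH hb'))]
        exact hφ _ _ hb'
      rw [e1, inner_add_left, h.orth a' ha' b' hb', zero_add] at h1
      rw [e1, inner_self_eq_zero.1 h1, add_zero]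
      exact ha'
    have hvA : v ∈ A := by
      have := hSA 0
      rwa [h.S0] at this
    rw [← hvk k hk]
    exact hkA v hvA hSA
  have hz : ∀ (x : ℂ), ∀ q ∈ B, E (S x q) = 0 := by
    intro x q hq
    rw [hE]
    have := h.ex_trans F ha (-x) hq
    rwa [neg_neg] at this
  have h1 := main (Complex.reCLM.comp E) (fun x q hq => by
    show (E (S x q)).re = 0
    rw [hz x q hq, Complex.zero_re])
  have h3 := main (Complex.imCLM.comp E) (fun x q hq => by
    show (E (S x q)).im = 0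
    rw [hz x q hq, Complex.zero_im])
  rw [← hE]
  exact Complex.ext h1 h3

/-- **the core**: the excess vanishes on the elements orthogonal to the invariant parts -/
theorem ex_all (h : Setting S H A B) (F : Facts μ) {c k : Lp ℝ 2 μ} (hc : c ∈ H) (hk : k ∈ H)
    (hkA : ∀ v ∈ A, (∀ x, S x v ∈ A) → ⟪v, k⟫_ℝ = 0)
    (hkB : ∀ v ∈ B, (∀ x, S x v ∈ B) → ⟪v, k⟫_ℝ = 0) :
    ex c k = 0 := by
  obtain ⟨a, ha, b, hb, rfl⟩ := h.sum c hc
  obtain ⟨k1, hk1, k2, hk2, rfl⟩ := h.sum k hk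
  obtain ⟨E, hE⟩ := F.exL (a + b)
  have h1 : ∀ v ∈ A, (∀ x, S x v ∈ A) → ⟪v, k1⟫_ℝ = 0 := by
    intro v hv hx
    have := hkA v hv hx
    rw [inner_add_right, h.orth v hv k2 hk2, add_zero] at this
    exact this
  have h2 : ∀ v ∈ B, (∀ x, S x v ∈ B) → ⟪v, k2⟫_ℝ = 0 := by
    intro v hv hx
    have := hkB v hv hx
    rw [inner_add_right, real_inner_comm, h.orth k1 hk1 v hv, zero_add] at this
    exact this
  rw [← hE, map_add, hE, hE, h.ex_A F ha hb hk1, h.ex_B F ha hb hk2,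
    h.ex_half F ha (h.hAH hk1) h1, h.symm.ex_half F hb (h.hBH hk2) h2, mul_zero, mul_zero,
    add_zero]

end Setting

/-- **the core**, for a closed subspace and its orthogonal complement in `H` -/
theorem core (F : Facts μ) (S : ℂ → Lp ℝ 2 μ →ₗᵢ[ℝ] Lp ℝ 2 μ)
    (S0 : ∀ g, S 0 g = g) (Sadd : ∀ x y g, S (x + y) g = S x (S y g))
    (Sex : ∀ x g k, ex (S x g) (S x k) = ex g k)
    (H A : Submodule ℝ (Lp ℝ 2 μ)) (hHc : IsClosed (H : Set (Lp ℝ 2 μ)))
    (hAc : IsClosed (A : Set (Lp ℝ 2 μ))) (hAH : A ≤ H)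
    (hHS : ∀ x, ∀ c ∈ H, S x c ∈ H) (hmean : ∀ c ∈ H, ∫ f, c f ∂μ = 0)
    (hlip : ∃ C : ℝ, 0 ≤ C ∧ ∀ x, ∀ c ∈ H, ‖S x c - c‖ ≤ C * ‖x‖ * ‖c‖)
    (hgen : ∀ e : ℂ, ∀ c ∈ H, ∃ D : Lp ℝ 2 μ,
      Tendsto (fun h : ℝ => h⁻¹ • (S (h * e) c - c)) (𝓝[>] 0) (𝓝 D))
    (hind : ∀ a ∈ A, ∀ b ∈ Aᗮ ⊓ H, ch (a + b) = ch a * ch b) :
    ∀ c ∈ H, ∀ k ∈ H, (∀ v ∈ A, (∀ x, S x v ∈ A) → ⟪v, k⟫_ℝ = 0) →
      (∀ v ∈ Aᗮ ⊓ H, (∀ x, S x v ∈ Aᗮ ⊓ H) → ⟪v, k⟫_ℝ = 0) → ex c k = 0 := by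
  have : CompleteSpace A := hAc.completeSpace_coe
  have h : Setting S H A (Aᗮ ⊓ H) :=
    { S0 := S0
      Sadd := Sadd
      Sex := Sex
      hHc := hHc
      hAc := hAc
      hBc := by
        rw [Submodule.coe_inf]
        exact (Submodule.isClosed_orthogonal A).inter hHc
      hAH := hAH
      hBH := inf_le_right
      orth := fun a ha b hb => (Submodule.mem_orthogonal A b).1 hb.1 a ha
      sum := fun c hc => ⟨A.starProjection c, Submodule.starProjection_apply_mem A c,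
        c - A.starProjection c, ⟨Submodule.sub_starProjection_mem_orthogonal c,
          H.sub_mem hc (hAH (Submodule.starProjection_apply_mem A c))⟩, by
            rw [add_sub_cancel]⟩
      hHS := hHS
      hmean := hmean
      hlip := hlip
      hgen := hgen
      hind := hind }
  intro c hc k hk hkA hkB
  exact h.ex_all F hc hk hkA hkB

end

end Pool.Agent.Helper26.Ip
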