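import Pool.Agent.Helper26.Ip.Fn
import Pool.Agent.Helper26.Ip.Asm

/-!
# Independent parts of stationary waves: from `L²` to random variables (MP_6b977f_mp)
-/

set_option autoImplicit false
set_option linter.unusedSectionVars false
open MeasureTheory Filter Topology ProbabilityTheory
open scoped ContDiff ENNReal InnerProductSpace

namespace Pool.Agent.Helper26.Ip

open Pool.Agent.N661.BR (MW J0 IsStationary shift meas_eval meas_shift IsGaussianLaw lin meas_lin)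
open Pool.Agent.Helper37.BC

noncomputable section

variable {μ : Measure MW} [IsProbabilityMeasure μ]

/-- the closed span as a subspace of `L²` -/
def AL (μ : Measure MW) (G : Set (MW → ℝ)) : Submodule ℝ (Lp ℝ 2 μ) :=
  (Submodule.span ℝ {a : Lp ℝ 2 μ | ∃ X ∈ G, a =ᵐ[μ] X}).topologicalClosure

theorem AL_closed (μ : Measure MW) (G : Set (MW → ℝ)) : IsClosed (AL μ G : Set (Lp ℝ 2 μ)) :=
  Submodule.isClosed_topologicalClosure _

theorem values_AL (μ : Measure MW) :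
    values μ = AL μ (Set.range fun (y : ℂ) (f : MW) => f y) := by
  unfold values AL
  congr 2
  ext a
  constructor
  · rintro ⟨y, hy⟩
    exact ⟨_, ⟨y, rfl⟩, hy⟩
  · rintro ⟨_, ⟨y, rfl⟩, hy⟩
    exact ⟨y, hy⟩

theorem normsq_toLp {X : MW → ℝ} (hX : MemLp X 2 μ) (b : Lp ℝ 2 μ) :
    ‖hX.toLp X - b‖ ^ 2 = ∫ f, (X f - b f) ^ 2 ∂μ := by
  rw [← real_inner_self_eq_norm_sq, ← inner_int]
  refine integral_congr_ae ?_
  filter_upwards [Lp.coeFn_sub (hX.toLp X) b, MemLp.coeFn_toLp hX] with f h1 h2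
  rw [h1, Pi.sub_apply, h2, sq]

theorem mem_AL {G : Set (MW → ℝ)} (hG : ∀ X ∈ G, MemLp X 2 μ) {X : MW → ℝ} (hX : MemLp X 2 μ) :
    X ∈ closedSpan μ G ↔ hX.toLp X ∈ AL μ G := by
  have h1 : ∀ Y ∈ Submodule.span ℝ G, ∃ hY : MemLp Y 2 μ,
      hY.toLp Y ∈ Submodule.span ℝ {a : Lp ℝ 2 μ | ∃ X ∈ G, a =ᵐ[μ] X} := by
    intro Y hY
    induction hY using Submodule.span_induction with
    | mem Y hY => exact ⟨hG Y hY, Submodule.subset_span ⟨Y, hY, MemLp.coeFn_toLp _⟩⟩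
    | zero => exact ⟨MemLp.zero, by
        rw [MemLp.toLp_zero]
        exact Submodule.zero_mem _⟩
    | add Y Z _ _ hY hZ =>
      obtain ⟨hY, hY2⟩ := hY
      obtain ⟨hZ, hZ2⟩ := hZ
      exact ⟨hY.add hZ, by rw [MemLp.toLp_add hY hZ]; exact Submodule.add_mem _ hY2 hZ2⟩
    | smul t Y _ hY =>
      obtain ⟨hY, hY2⟩ := hY
      exact ⟨hY.const_smul t, by rw [MemLp.toLp_const_smul t hY]; exact Submodule.smul_mem _ t hY2⟩
  have h2 : ∀ b ∈ Submodule.span ℝ {a : Lp ℝ 2 μ | ∃ X ∈ G, a =ᵐ[μ] X},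
      ∃ Y ∈ Submodule.span ℝ G, b =ᵐ[μ] Y := by
    intro b hb
    induction hb using Submodule.span_induction with
    | mem b hb =>
      obtain ⟨X, hX, h⟩ := hb
      exact ⟨X, Submodule.subset_span hX, h⟩
    | zero => exact ⟨0, Submodule.zero_mem _, Lp.coeFn_zero ℝ 2 μ⟩
    | add a b _ _ ha hb =>
      obtain ⟨Y, hY, e1⟩ := ha
      obtain ⟨Z, hZ, e2⟩ := hb
      exact ⟨Y + Z, Submodule.add_mem _ hY hZ, (Lp.coeFn_add a b).trans (e1.add e2)⟩
    | smul t a _ ha =>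
      obtain ⟨Y, hY, e1⟩ := ha
      refine ⟨t • Y, Submodule.smul_mem _ t hY, (Lp.coeFn_smul t a).trans ?_⟩
      exact e1.const_smul t
  constructor
  · rintro ⟨_, h⟩
    refine Metric.mem_closure_iff.2 fun ε hε => ?_
    obtain ⟨Y, hY, hY2, hlt⟩ := h (ε ^ 2) (by positivity)
    obtain ⟨hY3, hY4⟩ := h1 Y hY
    refine ⟨hY3.toLp Y, hY4, ?_⟩
    rw [dist_eq_norm]
    have e : ‖hX.toLp X - hY3.toLp Y‖ ^ 2 < ε ^ 2 := by
      rw [normsq_toLp]
      refine lt_of_le_of_lt (le_of_eq ?_) hlt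
      refine integral_congr_ae ?_
      filter_upwards [MemLp.coeFn_toLp hY3] with f hf
      rw [hf]
    exact lt_of_pow_lt_pow_left₀ 2 hε.le e
  · intro h
    refine ⟨hX, fun ε hε => ?_⟩
    obtain ⟨b, hb, hlt⟩ := Metric.mem_closure_iff.1 h (Real.sqrt ε) (Real.sqrt_pos.2 hε)
    obtain ⟨Y, hY, e⟩ := h2 b hb
    refine ⟨Y, hY, (memLp_congr_ae e).1 (Lp.memLp b), ?_⟩
    rw [dist_eq_norm] at hlt
    have h3 : ‖hX.toLp X - b‖ ^ 2 < ε := by
      have := pow_lt_pow_left₀ hlt (norm_nonneg _) (two_ne_zero)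
      rwa [Real.sq_sqrt hε.le] at this
    rw [normsq_toLp] at h3
    refine lt_of_le_of_lt (le_of_eq ?_) h3
    refine integral_congr_ae ?_
    filter_upwards [e] with f hf
    rw [hf]

theorem vals_two (hs : IsStationary μ) (h2 : Integrable (fun f : MW => f 0 ^ 2) μ) :
    ∀ X ∈ Set.range fun (y : ℂ) (f : MW) => f y, MemLp X 2 μ := by
  rintro _ ⟨y, rfl⟩
  exact eval_two hs h2 y

theorem mem_linear (hs : IsStationary μ) (h2 : Integrable (fun f : MW => f 0 ^ 2) μ) {X : MW → ℝ}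
    (hX : MemLp X 2 μ) : X ∈ linearSpace μ ↔ hX.toLp X ∈ values μ := by
  rw [values_AL]
  exact mem_AL (vals_two hs h2) hX

theorem inner_toLp {X Y : MW → ℝ} (hX : MemLp X 2 μ) (hY : MemLp Y 2 μ) :
    ⟪hX.toLp X, hY.toLp Y⟫_ℝ = ∫ f, X f * Y f ∂μ := by
  rw [← inner_int]
  refine integral_congr_ae ?_
  filter_upwards [MemLp.coeFn_toLp hX, MemLp.coeFn_toLp hY] with f h1 h2
  rw [h1, h2]

theorem mem_compl (hs : IsStationary μ) (h2 : Integrable (fun f : MW => f 0 ^ 2) μ)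
    {G : Set (MW → ℝ)} (hG : ∀ X ∈ G, MemLp X 2 μ) {X : MW → ℝ} (hX : MemLp X 2 μ) :
    X ∈ complement μ G ↔ hX.toLp X ∈ (AL μ G)ᗮ ⊓ values μ := by
  constructor
  · rintro ⟨h1, h3⟩
    refine ⟨(Submodule.mem_orthogonal _ _).2 fun a ha => ?_, (mem_linear hs h2 hX).1 h1⟩
    have hcl : IsClosed {a : Lp ℝ 2 μ | ⟪a, hX.toLp X⟫_ℝ = 0} :=
      isClosed_eq (by fun_prop) continuous_const
    have hsub : ((Submodule.span ℝ {a : Lp ℝ 2 μ | ∃ X ∈ G, a =ᵐ[μ] X} :
        Submodule ℝ (Lp ℝ 2 μ)) : Set (Lp ℝ 2 μ)) ⊆ {a | ⟪a, hX.toLp X⟫_ℝ = 0} := by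
      intro b hb
      induction hb using Submodule.span_induction with
      | mem b hb =>
        obtain ⟨Y, hY, e⟩ := hb
        show ⟪b, hX.toLp X⟫_ℝ = 0
        have : b = (hG Y hY).toLp Y := Lp.ext (e.trans (MemLp.coeFn_toLp _).symm)
        rw [this, real_inner_comm, inner_toLp]
        exact h3 Y hY
      | zero => exact inner_zero_left _
      | add a b _ _ ha hb =>
        show ⟪a + b, hX.toLp X⟫_ℝ = 0
        rw [inner_add_left, show ⟪a, hX.toLp X⟫_ℝ = 0 from ha, show ⟪b, hX.toLp X⟫_ℝ = 0 from hb,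
          add_zero]
      | smul t a _ ha =>
        show ⟪t • a, hX.toLp X⟫_ℝ = 0
        rw [inner_smul_left, show ⟪a, hX.toLp X⟫_ℝ = 0 from ha, mul_zero]
    exact (hcl.closure_subset_iff.2 hsub) ha
  · rintro ⟨h1, h3⟩
    refine ⟨(mem_linear hs h2 hX).2 h3, fun Y hY => ?_⟩
    rw [← inner_toLp hX (hG Y hY), real_inner_comm]
    exact (Submodule.mem_orthogonal _ _).1 h1 _ (Submodule.le_topologicalClosure _
      (Submodule.subset_span ⟨Y, hY, MemLp.coeFn_toLp _⟩))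

theorem comp_shift (hs : IsStationary μ) {X : MW → ℝ} (hX : MemLp X 2 μ) (x : ℂ) :
    ∃ h : MemLp (fun f => X (shift x f)) 2 μ, h.toLp _ = S hs x (hX.toLp X) := by
  refine ⟨hX.comp_measurePreserving (mp_shift hs x), ?_⟩
  refine Lp.ext ((MemLp.coeFn_toLp _).trans ?_)
  refine EventuallyEq.trans ?_ (S_coe hs x _).symm
  exact ((mp_shift hs x).quasiMeasurePreserving.ae_eq_comp (MemLp.coeFn_toLp hX)).symm

/-- invariant parts -/
theorem mem_inv (hs : IsStationary μ) {A : Set (MW → ℝ)} {K : Submodule ℝ (Lp ℝ 2 μ)}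
    (hAK : ∀ {X : MW → ℝ} (hX : MemLp X 2 μ), X ∈ A ↔ hX.toLp X ∈ K) {X : MW → ℝ}
    (hX : MemLp X 2 μ) : X ∈ invPart A ↔ hX.toLp X ∈ invariantPart K := by
  constructor
  · rintro ⟨h1, h3⟩
    refine ⟨(hAK hX).1 h1, fun x => ?_⟩
    obtain ⟨h, e⟩ := comp_shift hs hX x
    exact ⟨h.toLp _, (hAK h).1 (h3 x), by rw [e]; exact S_coe hs x _⟩
  · rintro ⟨h1, h3⟩
    refine ⟨(hAK hX).2 h1, fun x => ?_⟩
    obtain ⟨h, e⟩ := comp_shift hs hX x
    obtain ⟨b, hb, hb2⟩ := h3 x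
    rw [hAK h, e, ← eq_S hs hb2]
    exact hb

/-- zero -/
theorem zero_iff (hs : IsStationary μ) {A : Set (MW → ℝ)} {K : Submodule ℝ (Lp ℝ 2 μ)}
    (hAm : ∀ X ∈ A, MemLp X 2 μ)
    (hAK : ∀ {X : MW → ℝ} (hX : MemLp X 2 μ), X ∈ A ↔ hX.toLp X ∈ K) :
    IsZero μ (invPart A) ↔ NoInvariant K := by
  constructor
  · intro h a ha hx
    have h1 : (a : MW → ℝ) ∈ invPart A := by
      rw [mem_inv hs hAK (Lp.memLp a), Lp.toLp_coeFn]
      exact ⟨ha, hx⟩
    exact Lp.ext ((h a h1).trans (Lp.coeFn_zero ℝ 2 μ).symm)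
  · intro h X hX
    have hX2 := hAm X hX.1
    have h1 := (mem_inv hs hAK hX2).1 hX
    have h3 := h _ h1.1 h1.2
    have h4 := MemLp.coeFn_toLp hX2
    rw [h3] at h4
    exact h4.symm.trans (Lp.coeFn_zero ℝ 2 μ)

/-- independence -/
theorem indep_iff {A B : Set (MW → ℝ)} {K L : Submodule ℝ (Lp ℝ 2 μ)}
    (hAm : ∀ X ∈ A, MemLp X 2 μ) (hBm : ∀ X ∈ B, MemLp X 2 μ)
    (hAK : ∀ {X : MW → ℝ} (hX : MemLp X 2 μ), X ∈ A ↔ hX.toLp X ∈ K)
    (hBL : ∀ {X : MW → ℝ} (hX : MemLp X 2 μ), X ∈ B ↔ hX.toLp X ∈ L) :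
    Indep μ A B ↔ Independent K L := by
  constructor
  · intro h a ha b hb
    refine h a ?_ b ?_
    · rw [hAK (Lp.memLp a), Lp.toLp_coeFn]; exact ha
    · rw [hBL (Lp.memLp b), Lp.toLp_coeFn]; exact hb
  · intro h X hX Y hY
    have h1 := h _ ((hAK (hAm X hX)).1 hX) _ ((hBL (hBm Y hY)).1 hY)
    exact h1.congr (MemLp.coeFn_toLp _) (MemLp.coeFn_toLp _)

section final

variable (hs : IsStationary μ) (h2 : Integrable (fun f : MW => f 0 ^ 2) μ) {G : Set (MW → ℝ)}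
  (hG : G ⊆ linearSpace μ)

include hG in
theorem G_two : ∀ X ∈ G, MemLp X 2 μ := fun _ hX => (hG hX).1

theorem span_two : ∀ X ∈ closedSpan μ G, MemLp X 2 μ := fun _ hX => hX.1

theorem compl_two : ∀ X ∈ complement μ G, MemLp X 2 μ := fun _ hX => hX.1.1

include hs h2 hG in
theorem AL_le : AL μ G ≤ values μ := by
  unfold AL
  refine Submodule.topologicalClosure_minimal _ ?_ values_closed
  rw [Submodule.span_le]
  rintro a ⟨X, hX, e⟩
  have hX2 := G_two hG X hX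
  have : a = hX2.toLp X := Lp.ext (e.trans (MemLp.coeFn_toLp _).symm)
  rw [this]
  exact (mem_linear hs h2 hX2).1 (hG hX)

include hs h2 hG in
/-- **the general splitting**, for random variables -/
theorem split_fn (h0 : IsZero μ (invPart (closedSpan μ G)))
    (h1 : IsZero μ (invPart (complement μ G))) :
    IsGaussianLaw μ ↔ Indep μ (closedSpan μ G) (complement μ G) := by
  rw [indep_iff (K := AL μ G) (L := (AL μ G)ᗮ ⊓ values μ) span_two compl_two
    (fun hX => mem_AL (G_two hG) hX) (fun hX => mem_compl hs h2 (G_two hG) hX)]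
  exact split hs h2 (AL μ G) (AL_closed μ G) (AL_le hs h2 hG)
    ((zero_iff hs span_two (fun hX => mem_AL (G_two hG) hX)).1 h0)
    ((zero_iff hs compl_two (fun hX => mem_compl hs h2 (G_two hG) hX)).1 h1)

include hs h2 hG in
/-- **the structure of independent splittings**, for random variables -/
theorem structure_fn : Indep μ (closedSpan μ G) (complement μ G) ↔
    Indep μ (invPart (closedSpan μ G)) (invPart (complement μ G)) ∧
    ∀ k ∈ linearSpace μ, (∀ a ∈ invPart (closedSpan μ G), ∫ f, a f * k f ∂μ = 0) →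
      (∀ b ∈ invPart (complement μ G), ∫ f, b f * k f ∂μ = 0) →
      μ.map k = gaussianReal 0 (∫ f, k f ^ 2 ∂μ).toNNReal ∧
      ∀ c ∈ linearSpace μ, ∫ f, k f * c f ∂μ = 0 → IndepFun k c μ := by
  have mA : ∀ {X : MW → ℝ} (hX : MemLp X 2 μ), X ∈ closedSpan μ G ↔ hX.toLp X ∈ AL μ G :=
    fun hX => mem_AL (G_two hG) hX
  have mB : ∀ {X : MW → ℝ} (hX : MemLp X 2 μ), X ∈ complement μ G ↔
      hX.toLp X ∈ (AL μ G)ᗮ ⊓ values μ := fun hX => mem_compl hs h2 (G_two hG) hX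
  have mH : ∀ {X : MW → ℝ} (hX : MemLp X 2 μ), X ∈ linearSpace μ ↔ hX.toLp X ∈ values μ :=
    fun hX => mem_linear hs h2 hX
  have mem_fun : ∀ {A : Set (MW → ℝ)} {K : Submodule ℝ (Lp ℝ 2 μ)},
      (∀ {X : MW → ℝ} (hX : MemLp X 2 μ), X ∈ A ↔ hX.toLp X ∈ K) →
      ∀ a ∈ invariantPart K, (a : MW → ℝ) ∈ invPart A := by
    intro A K hAK a ha
    rw [mem_inv hs hAK (Lp.memLp a), Lp.toLp_coeFn]
    exact ha
  rw [indep_iff (K := AL μ G) (L := (AL μ G)ᗮ ⊓ values μ) span_two compl_two mA mB,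
    structure_iff hs h2 (AL μ G) (AL_closed μ G) (AL_le hs h2 hG)]
  constructor
  · rintro ⟨h1, h3⟩
    refine ⟨fun X hX Y hY => ?_, fun k hk ka kb => ?_⟩
    · have e1 := h1 _ ((mem_inv hs mA (span_two X hX.1)).1 hX) _
        ((mem_inv hs mB (compl_two Y hY.1)).1 hY)
      exact e1.congr (MemLp.coeFn_toLp _) (MemLp.coeFn_toLp _)
    · have hk2 : MemLp k 2 μ := hk.1
      have ek := MemLp.coeFn_toLp hk2
      obtain ⟨g1, g2⟩ := h3 (hk2.toLp k) ((mH hk2).1 hk)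
        (fun a ha => by
          refine Eq.trans ?_ (ka a (mem_fun mA a ha))
          refine integral_congr_ae ?_
          filter_upwards [ek] with f hf
          rw [hf])
        (fun b hb => by
          refine Eq.trans ?_ (kb b (mem_fun mB b hb))
          refine integral_congr_ae ?_
          filter_upwards [ek] with f hf
          rw [hf])
      refine ⟨?_, fun c hc hkc => ?_⟩
      · rw [← Measure.map_congr ek, g1]
        congr 2
        refine integral_congr_ae ?_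
        filter_upwards [ek] with f hf
        rw [hf]
      · have hc2 : MemLp c 2 μ := hc.1
        have ec := MemLp.coeFn_toLp hc2
        refine (g2 (hc2.toLp c) ((mH hc2).1 hc) ?_).congr ek ec
        refine Eq.trans ?_ hkc
        refine integral_congr_ae ?_
        filter_upwards [ek, ec] with f hf hf'
        rw [hf, hf']
  · rintro ⟨h1, h3⟩
    refine ⟨fun a ha b hb => h1 a (mem_fun mA a ha) b (mem_fun mB b hb), fun k hk ka kb => ?_⟩
    have hkH : (k : MW → ℝ) ∈ linearSpace μ := by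
      rw [mH (Lp.memLp k), Lp.toLp_coeFn]; exact hk
    obtain ⟨g1, g2⟩ := h3 k hkH
      (fun X hX => by
        have hX2 := span_two X hX.1
        refine Eq.trans ?_ (ka _ ((mem_inv hs mA hX2).1 hX))
        refine integral_congr_ae ?_
        filter_upwards [MemLp.coeFn_toLp hX2] with f hf
        rw [hf])
      (fun X hX => by
        have hX2 := compl_two X hX.1
        refine Eq.trans ?_ (kb _ ((mem_inv hs mB hX2).1 hX))
        refine integral_congr_ae ?_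
        filter_upwards [MemLp.coeFn_toLp hX2] with f hf
        rw [hf])
    exact ⟨g1, fun c hc hkc => g2 c (by
      rw [mH (Lp.memLp c), Lp.toLp_coeFn]; exact hc) hkc⟩

end final

end

end Pool.Agent.Helper26.Ip
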