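import Pool.Agent.Helper37.BC.Fin

/-!
# Independent parts of stationary waves: definitions (MP_6b977f_mp)
-/

set_option autoImplicit false
open MeasureTheory Filter Topology ProbabilityTheory
open scoped ContDiff ENNReal

namespace Pool.Agent.Helper26.Ip

open Pool.Agent.N661.BR (MW shift)

noncomputable section

/-- the closed linear span, in `L²(μ)`, of the values `f ↦ f y` -/
def values (μ : Measure MW) : Submodule ℝ (Lp ℝ 2 μ) :=
  (Submodule.span ℝ {g : Lp ℝ 2 μ | ∃ y : ℂ, g =ᵐ[μ] fun f : MW => f y}).topologicalClosure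

/-- the invariant part of `A`: the elements `a` of `A` all of whose translates
`f ↦ a (shift x f)` are in `A` -/
def invariantPart {μ : Measure MW} (A : Submodule ℝ (Lp ℝ 2 μ)) : Set (Lp ℝ 2 μ) :=
  {a | a ∈ A ∧ ∀ x : ℂ, ∃ b ∈ A, b =ᵐ[μ] fun f => a (shift x f)}

/-- only the zero element of `A` has all its translates `f ↦ a (shift x f)` in `A` -/
def NoInvariant {μ : Measure MW} (A : Submodule ℝ (Lp ℝ 2 μ)) : Prop :=
  ∀ a ∈ A, (∀ x : ℂ, ∃ b ∈ A, b =ᵐ[μ] fun f => a (shift x f)) → a = 0

/-- the elements of `A` are independent of the elements of `B` -/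
def Independent {μ : Measure MW} (A B : Submodule ℝ (Lp ℝ 2 μ)) : Prop :=
  ∀ a ∈ A, ∀ b ∈ B, IndepFun a b μ

/-- the partial wave of angular momentum `n` of `f` about `0`, times a constant: if
`f (r exp (iθ)) = ∑ a_k J_k(r) exp (ikθ)`, it is `π` times the sum of the terms with `k = n` or
`k = -n` (`2π` times this term if `n = 0`) -/
def partialWave (n : ℕ) (f : MW) (y : ℂ) : ℝ :=
  ∫ φ in (0:ℝ)..(2 * Real.pi), f (Complex.exp (φ * Complex.I) * y) * Real.cos (n * φ)

end

end Pool.Agent.Helper26.Ip
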