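import Pool.Agent.Helper26.Ip.Defs

/-!
# Independent parts of stationary waves: definitions for random variables (MP_6b977f_mp)
-/

set_option autoImplicit false
open MeasureTheory Filter Topology ProbabilityTheory
open scoped ContDiff ENNReal

namespace Pool.Agent.Helper26.Ip

open Pool.Agent.N661.BR (MW shift)

noncomputable section

/-- the closed linear span of `G` in `L²(μ)`: the square integrable random variables which are
limits in mean square of finite linear combinations of elements of `G` -/
def closedSpan (μ : Measure MW) (G : Set (MW → ℝ)) : Set (MW → ℝ) :=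
  {X | MemLp X 2 μ ∧ ∀ ε : ℝ, 0 < ε → ∃ Y ∈ Submodule.span ℝ G, MemLp Y 2 μ ∧
    ∫ f, (X f - Y f) ^ 2 ∂μ < ε}

/-- the space `H` of the linear random variables: the closed linear span of the values
`f ↦ f y` -/
def linearSpace (μ : Measure MW) : Set (MW → ℝ) :=
  closedSpan μ (Set.range fun (y : ℂ) (f : MW) => f y)

/-- the elements of `H` orthogonal to `G` -/
def complement (μ : Measure MW) (G : Set (MW → ℝ)) : Set (MW → ℝ) :=
  {X | X ∈ linearSpace μ ∧ ∀ Y ∈ G, ∫ f, X f * Y f ∂μ = 0}

/-- the invariant part of `A`: the elements `X` of `A` all of whose translates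
`f ↦ X (shift x f)` are in `A` -/
def invPart (A : Set (MW → ℝ)) : Set (MW → ℝ) :=
  {X | X ∈ A ∧ ∀ x : ℂ, (fun f => X (shift x f)) ∈ A}

/-- the elements of `A` are independent of the elements of `B` -/
def Indep (μ : Measure MW) (A B : Set (MW → ℝ)) : Prop := ∀ X ∈ A, ∀ Y ∈ B, IndepFun X Y μ

/-- all elements of `A` are zero almost surely -/
def IsZero (μ : Measure MW) (A : Set (MW → ℝ)) : Prop := ∀ X ∈ A, X =ᵐ[μ] fun _ => 0

/-- `ρ` splits: there is a set `G` of linear random variables such that its closed linear span `A`
and the orthogonal complement `B` of `A` in `H` are independent, and `A` and `B` have no non-zero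
invariant elements -/
def HasSplitting (ρ : Measure MW) : Prop :=
  ∃ G ⊆ linearSpace ρ, IsZero ρ (invPart (closedSpan ρ G)) ∧
    IsZero ρ (invPart (complement ρ G)) ∧ Indep ρ (closedSpan ρ G) (complement ρ G)

end

end Pool.Agent.Helper26.Ip
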